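import Pool.Agent.H52.O4.Spec

/-!
# The exchange inequality
-/

set_option autoImplicit false

namespace Pool.Agent.H32.O4Exc

open Pool.Agent.H52.O4

theorem Q_add' (ys : List ℝ) : ∀ f g : ℕ → ℕ → ℕ → ℕ → ℝ,
    Q (fun a b c d => f a b c d + g a b c d) ys = Q f ys + Q g ys := by
  induction ys with
  | nil => intro f g; simp [Q]
  | cons y ys ih =>
    intro f g
    simp only [Q]
    rw [ih, ih, ih, ih]
    ring

theorem Q_smul' (ys : List ℝ) : ∀ (r : ℝ) (f : ℕ → ℕ → ℕ → ℕ → ℝ),
    Q (fun a b c d => r * f a b c d) ys = r * Q f ys := by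
  induction ys with
  | nil => intro r f; simp [Q]
  | cons y ys ih =>
    intro r f
    simp only [Q]
    rw [ih, ih, ih, ih]
    ring

theorem qpos : QposSt := by
  intro f ys
  induction ys generalizing f with
  | nil =>
    intro _ h
    exact h 0 0 0 0 rfl
  | cons y ys ih =>
    intro hy h
    have hy0 : 0 ≤ y := hy y (by simp)
    have hys : ∀ z ∈ ys, 0 ≤ z := fun z hz => hy z (by simp [hz])
    simp only [List.length_cons] at h
    have h0 := ih (fun a b c d => f (a + 1) b c d) hys (fun a b c d hs => h _ _ _ _ (by omega))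
    have h1 := ih (fun a b c d => f a (b + 1) c d) hys (fun a b c d hs => h _ _ _ _ (by omega))
    have h2 := ih (fun a b c d => f a b (c + 1) d) hys (fun a b c d hs => h _ _ _ _ (by omega))
    have h3 := ih (fun a b c d => f a b c (d + 1)) hys (fun a b c d hs => h _ _ _ _ (by omega))
    simp only [Q]
    positivity

noncomputable def hf (y : ℝ) (g : ℕ → ℕ → ℕ → ℕ → ℝ) : ℕ → ℕ → ℕ → ℕ → ℝ := fun a b c d =>
  c * g a b (c - 1) d - 2 * y * b * g a (b - 1) c d + y ^ 2 * a * g (a - 1) b c d

noncomputable def ff (g : ℕ → ℕ → ℕ → ℕ → ℝ) : ℕ → ℕ → ℕ → ℕ → ℝ := fun a b c d =>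
  c * a * g (a - 1) b (c - 1) d - b * (b - 1) * g a (b - 2) c d

theorem pred_succ_mul (a : ℕ) (k : ℕ → ℝ) : (a : ℝ) * k (a - 1 + 1) = a * k a := by
  rcases a with _ | a
  · simp
  · simp

theorem claim1 (ys : List ℝ) : (∀ z ∈ ys, 0 ≤ z) → ∀ g : ℕ → ℕ → ℕ → ℕ → ℝ,
    (∀ a b c d, 0 ≤ g a b c d) → ∀ y, 0 ≤ Q (hf y g) ys := by
  induction ys with
  | nil =>
    intro _ g _ y
    simp [Q, hf]
  | cons z ys ih =>
    intro hz g hg y
    have hz0 : 0 ≤ z := hz z (by simp)
    have hys : ∀ z ∈ ys, 0 ≤ z := fun x hx => hz x (by simp [hx])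
    have e0 : (fun a b c d => hf y g (a + 1) b c d)
        = fun a b c d => hf y (fun a b c d => g (a + 1) b c d) a b c d + y ^ 2 * g a b c d := by
      funext a b c d
      have := pred_succ_mul a (fun x => g x b c d)
      simp only [hf, Nat.add_sub_cancel]
      push_cast
      linear_combination (- y ^ 2) * this
    have e1 : (fun a b c d => hf y g a (b + 1) c d)
        = fun a b c d => hf y (fun a b c d => g a (b + 1) c d) a b c d
          + (- (2 * y)) * g a b c d := by
      funext a b c d
      have := pred_succ_mul b (fun x => g a x c d)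
      simp only [hf, Nat.add_sub_cancel]
      push_cast
      linear_combination (2 * y) * this
    have e2 : (fun a b c d => hf y g a b (c + 1) d)
        = fun a b c d => hf y (fun a b c d => g a b (c + 1) d) a b c d + 1 * g a b c d := by
      funext a b c d
      have := pred_succ_mul c (fun x => g a b x d)
      simp only [hf, Nat.add_sub_cancel]
      push_cast
      linear_combination (-1) * this
    have e3 : (fun a b c d => hf y g a b c (d + 1))
        = fun a b c d => hf y (fun a b c d => g a b c (d + 1)) a b c d := rfl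
    rw [Q, e0, e1, e2, e3]
    rw [Q_add', Q_add', Q_add', Q_smul', Q_smul', Q_smul']
    have h0 := ih hys (fun a b c d => g (a + 1) b c d) (fun a b c d => hg _ _ _ _) y
    have h1 := ih hys (fun a b c d => g a (b + 1) c d) (fun a b c d => hg _ _ _ _) y
    have h2 := ih hys (fun a b c d => g a b (c + 1) d) (fun a b c d => hg _ _ _ _) y
    have h3 := ih hys (fun a b c d => g a b c (d + 1)) (fun a b c d => hg _ _ _ _) y
    have hq : 0 ≤ Q g ys := qpos g ys hys (fun a b c d _ => hg _ _ _ _)
    have e : Q (fun a b c d => hf y (fun a b c d => g (a + 1) b c d) a b c d) ys + y ^ 2 * Q g ys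
        + z * (Q (fun a b c d => hf y (fun a b c d => g a (b + 1) c d) a b c d) ys
          + (- (2 * y)) * Q g ys)
        + z ^ 2 * (Q (fun a b c d => hf y (fun a b c d => g a b (c + 1) d) a b c d) ys
          + 1 * Q g ys)
        + z ^ 3 * Q (fun a b c d => hf y (fun a b c d => g a b c (d + 1)) a b c d) ys
        = Q (hf y (fun a b c d => g (a + 1) b c d)) ys
          + z * Q (hf y (fun a b c d => g a (b + 1) c d)) ys
          + z ^ 2 * Q (hf y (fun a b c d => g a b (c + 1) d)) ys
          + z ^ 3 * Q (hf y (fun a b c d => g a b c (d + 1))) ys + (y - z) ^ 2 * Q g ys := by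
      ring
    rw [e]
    positivity

theorem claim2 (ys : List ℝ) : (∀ z ∈ ys, 0 ≤ z) → ∀ g : ℕ → ℕ → ℕ → ℕ → ℝ,
    (∀ a b c d, 0 ≤ g a b c d) → 0 ≤ Q (ff g) ys := by
  induction ys with
  | nil =>
    intro _ g _
    simp [Q, ff]
  | cons y ys ih =>
    intro hz g hg
    have hy0 : 0 ≤ y := hz y (by simp)
    have hys : ∀ z ∈ ys, 0 ≤ z := fun x hx => hz x (by simp [hx])
    have e0 : (fun a b c d => ff g (a + 1) b c d)
        = fun a b c d => ff (fun a b c d => g (a + 1) b c d) a b c d
          + (c : ℝ) * g a b (c - 1) d := by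
      funext a b c d
      have := pred_succ_mul a (fun x => g x b (c - 1) d)
      simp only [ff, Nat.add_sub_cancel]
      push_cast
      linear_combination (- (c : ℝ)) * this
    have e1 : (fun a b c d => ff g a (b + 1) c d)
        = fun a b c d => ff (fun a b c d => g a (b + 1) c d) a b c d
          + (- 2) * ((b : ℝ) * g a (b - 1) c d) := by
      funext a b c d
      simp only [ff]
      rcases b with _ | _ | b
      · simp
      · simp
        ring
      · have h1 : b + 1 + 1 + 1 - 2 = b + 1 := by omega
        have h2 : b + 1 + 1 - 2 + 1 = b + 1 := by omega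
        have h3 : b + 1 + 1 - 1 = b + 1 := by omega
        rw [h1, h2, h3]
        push_cast
        ring
    have e2 : (fun a b c d => ff g a b (c + 1) d)
        = fun a b c d => ff (fun a b c d => g a b (c + 1) d) a b c d
          + (a : ℝ) * g (a - 1) b c d := by
      funext a b c d
      have := pred_succ_mul c (fun x => g (a - 1) b x d)
      simp only [ff, Nat.add_sub_cancel]
      push_cast
      linear_combination (- (a : ℝ)) * this
    have e3 : (fun a b c d => ff g a b c (d + 1))
        = fun a b c d => ff (fun a b c d => g a b c (d + 1)) a b c d := rfl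
    have eh : Q (hf y g) ys = Q (fun a b c d => (c : ℝ) * g a b (c - 1) d) ys
        + (- 2 * y) * Q (fun a b c d => (b : ℝ) * g a (b - 1) c d) ys
        + y ^ 2 * Q (fun a b c d => (a : ℝ) * g (a - 1) b c d) ys := by
      rw [← Q_smul', ← Q_smul', ← Q_add', ← Q_add']
      congr 1
      funext a b c d
      simp only [hf]
      ring
    have hh := claim1 ys hys g hg y
    rw [Q, e0, e1, e2, e3]
    rw [Q_add', Q_add', Q_add', Q_smul']
    have h0 := ih hys (fun a b c d => g (a + 1) b c d) (fun a b c d => hg _ _ _ _)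
    have h1 := ih hys (fun a b c d => g a (b + 1) c d) (fun a b c d => hg _ _ _ _)
    have h2 := ih hys (fun a b c d => g a b (c + 1) d) (fun a b c d => hg _ _ _ _)
    have h3 := ih hys (fun a b c d => g a b c (d + 1)) (fun a b c d => hg _ _ _ _)
    have e : Q (fun a b c d => ff (fun a b c d => g (a + 1) b c d) a b c d) ys
          + Q (fun a b c d => (c : ℝ) * g a b (c - 1) d) ys
        + y * (Q (fun a b c d => ff (fun a b c d => g a (b + 1) c d) a b c d) ys
          + (- 2) * Q (fun a b c d => (b : ℝ) * g a (b - 1) c d) ys)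
        + y ^ 2 * (Q (fun a b c d => ff (fun a b c d => g a b (c + 1) d) a b c d) ys
          + Q (fun a b c d => (a : ℝ) * g (a - 1) b c d) ys)
        + y ^ 3 * Q (fun a b c d => ff (fun a b c d => g a b c (d + 1)) a b c d) ys
        = Q (ff (fun a b c d => g (a + 1) b c d)) ys
          + y * Q (ff (fun a b c d => g a (b + 1) c d)) ys
          + y ^ 2 * Q (ff (fun a b c d => g a b (c + 1) d)) ys
          + y ^ 3 * Q (ff (fun a b c d => g a b c (d + 1))) ys + Q (hf y g) ys := by
      rw [eh]
      ring
    rw [e]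
    positivity

theorem excOk : ExcSt := by
  rintro ⟨a0, b0, c0, d0⟩ ys hys
  have h := claim2 ys hys (fun a b c d => if (a, b, c, d) = (a0, b0, c0, d0) then 1 else 0)
    (fun a b c d => by positivity)
  have e : (fun a b c d => (exc (a0, b0, c0, d0) (a, b, c, d) : ℝ))
      = ff (fun a b c d => if (a, b, c, d) = (a0, b0, c0, d0) then 1 else 0) := by
    funext a b c d
    simp only [ff, exc, Prod.mk.injEq]
    by_cases h1 : a = a0 + 1 ∧ b = b0 ∧ c = c0 + 1 ∧ d = d0
    · obtain ⟨rfl, rfl, rfl, rfl⟩ := h1
      have h2 : ¬ (a0 + 1 = a0) := by omega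
      simp
    · rw [if_neg h1]
      by_cases h2 : a = a0 ∧ b = b0 + 2 ∧ c = c0 ∧ d = d0
      · obtain ⟨rfl, rfl, rfl, rfl⟩ := h2
        have h3 : ¬ (b0 + 2 = b0) := by omega
        simp
        left
        ring
      · rw [if_neg h2]
        have t1 : (c : ℝ) * a * (if a - 1 = a0 ∧ b = b0 ∧ c - 1 = c0 ∧ d = d0 then (1 : ℝ) else 0)
            = 0 := by
          by_cases h3 : a - 1 = a0 ∧ b = b0 ∧ c - 1 = c0 ∧ d = d0
          · rcases a with _ | a
            · simp
            · rcases c with _ | c
              · simp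
              · exfalso
                apply h1
                obtain ⟨h4, h5, h6, h7⟩ := h3
                simp only [Nat.add_sub_cancel] at h4 h6
                exact ⟨by omega, h5, by omega, h7⟩
          · rw [if_neg h3, mul_zero]
        have t2 : (b : ℝ) * (b - 1) * (if a = a0 ∧ b - 2 = b0 ∧ c = c0 ∧ d = d0 then (1 : ℝ) else 0)
            = 0 := by
          by_cases h3 : a = a0 ∧ b - 2 = b0 ∧ c = c0 ∧ d = d0
          · rcases b with _ | _ | b
            · simp
            · simp
            · exfalso
              apply h2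
              obtain ⟨h4, h5, h6, h7⟩ := h3
              exact ⟨h4, by omega, h6, h7⟩
          · rw [if_neg h3, mul_zero]
        rw [t1, t2]
        simp
  rw [e]
  exact h

end Pool.Agent.H32.O4Exc
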