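import Pool.Agent.H52.O4.Val
import Pool.Agent.H52.O4.Nrm
import Pool.Agent.H52.O4.RowA

/-!
# The window of rows as a state, by computation
-/

set_option autoImplicit false

open Polynomial

namespace Pool.Agent.H32.O4Row

open Pool.Agent.H52.O4

/-! ### coefficients as nested Horner lists (outer variable `p`, inner variable `u`) -/

def mul1 : List ℤ → List ℤ → List ℤ
  | [], _ => []
  | x :: v, w => vadd (vmul x w) (0 :: mul1 v w)

def add2 : List (List ℤ) → List (List ℤ) → List (List ℤ)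
  | [], b => b
  | x :: a, [] => x :: a
  | x :: a, y :: b => vadd x y :: add2 a b

def mul2 : List (List ℤ) → List (List ℤ) → List (List ℤ)
  | [], _ => []
  | x :: v, w => add2 (w.map (mul1 x)) ([] :: mul2 v w)

def neg2 (v : List (List ℤ)) : List (List ℤ) := v.map (vmul (-1))

def zero2 (v : List (List ℤ)) : Bool := v.all vzero

noncomputable def ev1 (u : ℝ) : List ℤ → ℝ
  | [] => 0
  | x :: v => x + u * ev1 u v

noncomputable def ev2 (p u : ℝ) : List (List ℤ) → ℝ
  | [] => 0
  | x :: v => ev1 u x + p * ev2 p u v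

theorem ev1_vadd (u : ℝ) : ∀ a b : List ℤ, ev1 u (vadd a b) = ev1 u a + ev1 u b := by
  intro a
  induction a with
  | nil => intro b; simp [vadd, ev1]
  | cons x a ih =>
    intro b
    cases b with
    | nil => simp [vadd, ev1]
    | cons y b =>
      simp only [vadd, ev1]
      rw [ih]
      push_cast
      ring

theorem ev1_vmul (u : ℝ) (c : ℤ) (v : List ℤ) : ev1 u (vmul c v) = c * ev1 u v := by
  induction v with
  | nil => simp [vmul, ev1]
  | cons x v ih =>
    have e : vmul c (x :: v) = (c * x) :: vmul c v := rfl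
    rw [e]
    simp only [ev1]
    rw [ih]
    push_cast
    ring

theorem ev1_mul1 (u : ℝ) (w : List ℤ) : ∀ v : List ℤ, ev1 u (mul1 v w) = ev1 u v * ev1 u w := by
  intro v
  induction v with
  | nil => simp [mul1, ev1]
  | cons x v ih =>
    rw [mul1, ev1_vadd, ev1_vmul]
    simp only [ev1]
    rw [ih]
    push_cast
    ring

theorem ev2_add2 (p u : ℝ) : ∀ a b : List (List ℤ), ev2 p u (add2 a b) = ev2 p u a + ev2 p u b := by
  intro a
  induction a with
  | nil => intro b; simp [add2, ev2]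
  | cons x a ih =>
    intro b
    cases b with
    | nil => simp [add2, ev2]
    | cons y b =>
      simp only [add2, ev2]
      rw [ih, ev1_vadd]
      ring

theorem ev2_map (p u : ℝ) (x : List ℤ) (w : List (List ℤ)) :
    ev2 p u (w.map (mul1 x)) = ev1 u x * ev2 p u w := by
  induction w with
  | nil => simp [ev2]
  | cons y w ih =>
    rw [List.map_cons]
    simp only [ev2]
    rw [ih, ev1_mul1]
    ring

theorem ev2_mul2 (p u : ℝ) (w : List (List ℤ)) : ∀ v : List (List ℤ),
    ev2 p u (mul2 v w) = ev2 p u v * ev2 p u w := by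
  intro v
  induction v with
  | nil => simp [mul2, ev2]
  | cons x v ih =>
    rw [mul2, ev2_add2, ev2_map]
    simp only [ev2, ev1]
    rw [ih]
    ring

theorem ev2_neg2 (p u : ℝ) (v : List (List ℤ)) : ev2 p u (neg2 v) = - ev2 p u v := by
  induction v with
  | nil => simp [neg2, ev2]
  | cons x v ih =>
    have e : neg2 (x :: v) = vmul (-1) x :: neg2 v := rfl
    rw [e]
    simp only [ev2]
    rw [ih, ev1_vmul]
    push_cast
    ring

theorem ev1_vzero {u : ℝ} {v : List ℤ} (h : vzero v = true) : ev1 u v = 0 := by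
  induction v with
  | nil => simp [ev1]
  | cons x v ih =>
    have h1 : x = 0 ∧ vzero v = true := by
      simpa [vzero] using h
    simp only [ev1]
    rw [ih h1.2, h1.1]
    simp

theorem ev2_zero2 {p u : ℝ} {v : List (List ℤ)} (h : zero2 v = true) : ev2 p u v = 0 := by
  induction v with
  | nil => simp [ev2]
  | cons x v ih =>
    have h1 : vzero x = true ∧ zero2 v = true := by
      simpa [zero2] using h
    simp only [ev2]
    rw [ih h1.2, ev1_vzero h1.1]
    simp

/-- monomial `x p^i u^j` -/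
def mono (x : ℤ) (i j : ℕ) : List (List ℤ) :=
  List.replicate i [] ++ [List.replicate j 0 ++ [x]]

def conv : ℕ → ℕ → List ℤ → List (List ℤ)
  | _, _, [] => []
  | i, j, x :: v => add2 (mono x i j) (if j = 0 then conv 0 (i + 1) v else conv (i + 1) (j - 1) v)

theorem ev1_mono (u : ℝ) (x : ℤ) (j : ℕ) : ev1 u (List.replicate j 0 ++ [x]) = x * u ^ j := by
  induction j with
  | zero => simp [ev1]
  | succ j ih =>
    rw [List.replicate_succ, List.cons_append]
    simp only [ev1]
    rw [ih]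
    push_cast
    ring

theorem ev2_mono (p u : ℝ) (x : ℤ) (i j : ℕ) : ev2 p u (mono x i j) = x * (p ^ i * u ^ j) := by
  unfold mono
  induction i with
  | zero =>
    simp only [List.replicate_zero, List.nil_append, ev2]
    rw [ev1_mono]
    ring
  | succ i ih =>
    rw [List.replicate_succ, List.cons_append]
    simp only [ev2, ev1]
    rw [ih]
    ring

theorem ev2_conv (p u : ℝ) : ∀ (v : List ℤ) (i j : ℕ), ev2 p u (conv i j v) = evAux p u i j v := by
  intro v
  induction v with
  | nil => intro i j; simp [conv, evAux, ev2]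
  | cons x v ih =>
    intro i j
    simp only [conv, evAux]
    rw [ev2_add2, ev2_mono]
    split_ifs with h
    · rw [ih]
    · rw [ih]

/-! ### states -/

abbrev St2 := List (List (List ℤ) × List ℕ)

noncomputable def sem2 (p u : ℝ) (ℓ : List ℕ → ℝ) (S : St2) : ℝ :=
  (S.map fun x => ev2 p u x.1 * ℓ x.2).sum

theorem sem2_nil (p u : ℝ) (ℓ : List ℕ → ℝ) : sem2 p u ℓ [] = 0 := by simp [sem2]

theorem sem2_cons (p u : ℝ) (ℓ : List ℕ → ℝ) (x : List (List ℤ) × List ℕ) (S : St2) :
    sem2 p u ℓ (x :: S) = ev2 p u x.1 * ℓ x.2 + sem2 p u ℓ S := by simp [sem2]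

def addT2 (c : List (List ℤ)) (t : List ℕ) : St2 → St2
  | [] => [(c, t)]
  | (c', t') :: S => if t = t' then (add2 c c', t') :: S else (c', t') :: addT2 c t S

def addU2 (c : List (List ℤ)) (t : List ℕ) (S : St2) : St2 :=
  match nrm t with
  | none => S
  | some (false, t') => addT2 c t' S
  | some (true, t') => addT2 (neg2 c) t' S

theorem sem2_addT2 (p u : ℝ) (ℓ : List ℕ → ℝ) (c : List (List ℤ)) (t : List ℕ) (S : St2) :
    sem2 p u ℓ (addT2 c t S) = ev2 p u c * ℓ t + sem2 p u ℓ S := by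
  induction S with
  | nil => simp [addT2, sem2]
  | cons x S ih =>
    obtain ⟨c', t'⟩ := x
    unfold addT2
    split_ifs with h
    · rw [sem2_cons, sem2_cons]
      simp only
      rw [ev2_add2, h]
      ring
    · rw [sem2_cons, sem2_cons, ih]
      ring

theorem sem2_addU2 (p u : ℝ) {ℓ : List ℕ → ℝ} (h : Alt ℓ) (c : List (List ℤ)) (t : List ℕ)
    (S : St2) : sem2 p u ℓ (addU2 c t S) = ev2 p u c * ℓ t + sem2 p u ℓ S := by
  obtain ⟨ha, hb⟩ := nrm_nrm_spec h t []
  unfold addU2
  cases hi : nrm t with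
  | none =>
    have h1 : ℓ t = 0 := by simpa using ha hi
    simp [h1]
  | some q =>
    obtain ⟨b, t2⟩ := q
    have h1 : ℓ t = nrmSgn b * ℓ t2 := by simpa using hb b t2 hi
    cases b with
    | false =>
      simp only
      rw [sem2_addT2, h1]
      simp [nrmSgn]
    | true =>
      simp only
      rw [sem2_addT2, h1, ev2_neg2]
      simp [nrmSgn]

abbrev Row := List (List (List ℤ) × ℕ)

/-- all products of the row `R` with the state `W`, added to `S` -/
def inner (x : List (List ℤ) × ℕ) (W S : St2) : St2 :=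
  W.foldr (fun y S' => addU2 (mul2 x.1 y.1) (x.2 :: y.2) S') S

def outer (R : Row) (W : St2) : St2 := R.foldr (fun x S => inner x W S) []

def wedge : List Row → St2
  | [] => [([[1]], [])]
  | R :: Rs => outer R (wedge Rs)

/-- multilinear expansion -/
noncomputable def ex (p u : ℝ) : List Row → (List ℕ → ℝ) → ℝ
  | [], ℓ => ℓ []
  | R :: Rs, ℓ => (R.map fun x => ev2 p u x.1 * ex p u Rs (fun s => ℓ (x.2 :: s))).sum

theorem sem2_inner (p u : ℝ) {ℓ : List ℕ → ℝ} (h : Alt ℓ) (x : List (List ℤ) × ℕ) (W S : St2) :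
    sem2 p u ℓ (inner x W S)
      = ev2 p u x.1 * sem2 p u (fun s => ℓ (x.2 :: s)) W + sem2 p u ℓ S := by
  unfold inner
  induction W with
  | nil => simp [sem2]
  | cons y W ih =>
    rw [List.foldr_cons, sem2_addU2 p u h, ih, sem2_cons, ev2_mul2]
    ring

theorem alt_cons {ℓ : List ℕ → ℝ} (h : Alt ℓ) (n : ℕ) : Alt (fun s => ℓ (n :: s)) := by
  intro s x y t
  exact h (n :: s) x y t

theorem sem2_wedge (p u : ℝ) : ∀ (Rs : List Row) {ℓ : List ℕ → ℝ}, Alt ℓ →
    sem2 p u ℓ (wedge Rs) = ex p u Rs ℓ := by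
  intro Rs
  induction Rs with
  | nil =>
    intro ℓ _
    simp [wedge, ex, sem2, ev2, ev1]
  | cons R Rs ih =>
    intro ℓ h
    rw [wedge, ex]
    unfold outer
    induction R with
    | nil => simp [sem2]
    | cons x R ihR =>
      rw [List.foldr_cons, sem2_inner p u h, ihR, List.map_cons, List.sum_cons,
        ih (alt_cons h x.2)]

theorem ex_congr (p u : ℝ) : ∀ (Rs : List Row) {ℓ ℓ' : List ℕ → ℝ},
    (∀ s, s.length = Rs.length → ℓ s = ℓ' s) → ex p u Rs ℓ = ex p u Rs ℓ' := by
  intro Rs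
  induction Rs with
  | nil =>
    intro ℓ ℓ' h
    rw [ex, ex, h [] rfl]
  | cons R Rs ih =>
    intro ℓ ℓ' h
    rw [ex, ex]
    congr 1
    apply List.map_congr_left
    intro x _
    rw [ih (ℓ := fun s => ℓ (x.2 :: s)) (ℓ' := fun s => ℓ' (x.2 :: s))
      (fun s hs => h _ (by simp [hs]))]

/-- the polynomial of a row -/
noncomputable def rowPoly (p u : ℝ) (F : List ℝ) (R : Row) : ℝ[X] :=
  (R.map fun x => C (ev2 p u x.1) * rw0 [] F x.2).sum

theorem Val_zero' {κ m : ℕ} (P t : List ℝ[X]) (h : P.length < m) :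
    Val_L κ m (P ++ 0 :: t) = 0 := by
  have := Val_smul (κ := κ) (m := m) P t 0 0 h
  simpa using this

theorem Val_row {κ m : ℕ} (p u : ℝ) (F : List ℝ) (R : Row) (P t : List ℝ[X]) (h : P.length < m) :
    Val_L κ m (P ++ rowPoly p u F R :: t)
      = (R.map fun x => ev2 p u x.1 * Val_L κ m (P ++ rw0 [] F x.2 :: t)).sum := by
  unfold rowPoly
  induction R with
  | nil =>
    rw [List.map_nil, List.map_nil, List.sum_nil, List.sum_nil]
    exact Val_zero' P t h
  | cons x R ih =>
    rw [List.map_cons, List.sum_cons, Val_add _ _ _ _ h, ih, Val_smul _ _ _ _ h, List.map_cons,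
      List.sum_cons]

theorem Val_ex {κ m : ℕ} (p u : ℝ) (F : List ℝ) : ∀ (Rs : List Row) (P : List ℝ[X]),
    P.length + Rs.length ≤ m →
    Val_L κ m (P ++ Rs.map (rowPoly p u F))
      = ex p u Rs (fun s => Val_L κ m (P ++ s.map (rw0 [] F))) := by
  intro Rs
  induction Rs with
  | nil =>
    intro P _
    simp [ex]
  | cons R Rs ih =>
    intro P hP
    rw [List.length_cons] at hP
    rw [List.map_cons, Val_row p u F R P _ (by omega), ex]
    congr 1
    apply List.map_congr_left
    intro x _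
    have e : P ++ rw0 [] F x.2 :: Rs.map (rowPoly p u F)
        = (P ++ [rw0 [] F x.2]) ++ Rs.map (rowPoly p u F) := by simp
    rw [e, ih (P ++ [rw0 [] F x.2]) (by rw [List.length_append, List.length_singleton]; omega)]
    congr 2
    funext s
    simp

theorem ex_val (p u : ℝ) (F : List ℝ) (κ : ℕ) (Rs : List Row) :
    Val_L κ Rs.length (Rs.map (rowPoly p u F)) = sem2 p u (val [] F κ) (wedge Rs) := by
  rw [sem2_wedge p u Rs (valAlt [] F κ)]
  have h := Val_ex (κ := κ) (m := Rs.length) p u F Rs [] (by simp)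
  rw [List.nil_append] at h
  rw [h]
  apply ex_congr
  intro s hs
  rw [List.nil_append, Val_val, hs]

/-! ### comparison -/

def diff (W : St2) (S : St) : St2 :=
  S.foldr (fun x T => addT2 (neg2 (conv 0 0 x.1)) x.2 T) W

def chk (W : St2) (S : St) : Bool := (diff W S).all fun x => zero2 x.1

theorem sem2_diff (p u : ℝ) (ℓ : List ℕ → ℝ) (W : St2) (S : St) :
    sem2 p u ℓ (diff W S) = sem2 p u ℓ W - sem p u ℓ S := by
  unfold diff
  induction S with
  | nil => simp [sem]
  | cons x S ih =>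
    rw [List.foldr_cons, sem2_addT2, ih, nrm_sem_cons, ev2_neg2, ev2_conv]
    unfold ev
    ring

theorem sem2_zero (p u : ℝ) (ℓ : List ℕ → ℝ) {W : St2} (h : (W.all fun x => zero2 x.1) = true) :
    sem2 p u ℓ W = 0 := by
  induction W with
  | nil => simp [sem2]
  | cons x W ih =>
    have h1 : zero2 x.1 = true ∧ (W.all fun x => zero2 x.1) = true := by
      rw [List.all_cons, Bool.and_eq_true] at h
      exact h
    rw [sem2_cons, ih h1.2, ev2_zero2 h1.1]
    ring

theorem sem_of_chk (p u : ℝ) (ℓ : List ℕ → ℝ) {W : St2} {S : St} (h : chk W S = true) :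
    sem2 p u ℓ W = sem p u ℓ S := by
  have h1 := sem2_diff p u ℓ W S
  rw [sem2_zero p u ℓ h] at h1
  linarith

/-! ### the rows -/

def R0 : Row := [([[1]], 0)]
def R1 : Row := [([[1]], 0), ([[1, 1], [1]], 8), ([[1]], 9)]
def R2 : Row := [([[1]], 0), ([[4, 4], [3]], 8), ([[3]], 9), ([[1, 3, 2], [2, 3], [1]], 16),
  ([[3, 3], [2]], 17), ([[2]], 18)]
def R3 : Row := [([[1]], 0), ([[11, 11], [7]], 8), ([[7]], 9), ([[11, 29, 18], [16, 22], [6]], 16),
  ([[22, 22], [12]], 17), ([[12]], 18), ([[1, 6, 11, 6], [3, 12, 11], [3, 6], [1]], 24),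
  ([[7, 18, 11], [9, 12], [3]], 25), ([[12, 12], [6]], 26), ([[6]], 27)]

theorem chk3 : chk (wedge [R0, R1, R2]) om3 = true := by decide +kernel

theorem chk4 : chk (wedge [R0, R1, R2, R3]) om4 = true := by decide +kernel

theorem r0 (F : List ℝ) (p u : ℝ) : rwi F (1 + u + p) (1 + u) 0 = rowPoly p u F R0 := by
  rw [rowB_zero]
  simp [rowPoly, R0, ev2, ev1]

theorem r1 (F : List ℝ) (p u : ℝ) : rwi F (1 + u + p) (1 + u) 1 = rowPoly p u F R1 := by
  rw [rowB_one]
  have e1 : ev2 p u [[1]] = 1 := by simp [ev2, ev1]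
  have e2 : ev2 p u [[1, 1], [1]] = 1 + u + p := by simp [ev2, ev1]
  simp only [rowPoly, R1, List.map_cons, List.map_nil, List.sum_cons, List.sum_nil, e1, e2, C_1,
    one_mul]
  ring

theorem r2 (F : List ℝ) (p u : ℝ) : rwi F (1 + u + p) (1 + u) 2 = rowPoly p u F R2 := by
  rw [rowB_two]
  have e1 : ev2 p u [[1]] = 1 := by simp [ev2, ev1]
  have e2 : ev2 p u [[4, 4], [3]] = 3 * (1 + u + p) + (1 + u) := by simp [ev2, ev1]; ring
  have e3 : ev2 p u [[3]] = 3 := by simp [ev2, ev1]
  have e4 : ev2 p u [[1, 3, 2], [2, 3], [1]] = (1 + u + p) * ((1 + u + p) + (1 + u) - 1) := by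
    simp [ev2, ev1]; ring
  have e5 : ev2 p u [[3, 3], [2]] = 2 * (1 + u + p) + (1 + u) := by simp [ev2, ev1]; ring
  have e6 : ev2 p u [[2]] = 2 := by simp [ev2, ev1]
  simp only [rowPoly, R2, List.map_cons, List.map_nil, List.sum_cons, List.sum_nil, e1, e2, e3,
    e4, e5, e6, C_1, one_mul]
  ring

theorem r3 (F : List ℝ) (p u : ℝ) : rwi F (1 + u + p) (1 + u) 3 = rowPoly p u F R3 := by
  rw [rowB_three]
  have e1 : ev2 p u [[1]] = 1 := by simp [ev2, ev1]
  have e2 : ev2 p u [[11, 11], [7]] = 7 * (1 + u + p) + 4 * (1 + u) := by simp [ev2, ev1]; ring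
  have e3 : ev2 p u [[7]] = 7 := by simp [ev2, ev1]
  have e4 : ev2 p u [[11, 29, 18], [16, 22], [6]] = ((1 + u + p) + 2 * (1 + u) - 1) *
      (3 * (1 + u + p) + (1 + u)) + 3 * ((1 + u + p) * ((1 + u + p) + (1 + u) - 1)) := by
    simp [ev2, ev1]; ring
  have e5 : ev2 p u [[22, 22], [12]] = (3 * (1 + u + p) + (1 + u)) +
      3 * ((1 + u + p) + 2 * (1 + u)) + 3 * (2 * (1 + u + p) + (1 + u)) := by
    simp [ev2, ev1]; ring
  have e6 : ev2 p u [[12]] = 12 := by simp [ev2, ev1]
  have e7 : ev2 p u [[1, 6, 11, 6], [3, 12, 11], [3, 6], [1]] = (1 + u + p) *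
      ((1 + u + p) + (1 + u) - 1) * ((1 + u + p) + 2 * (1 + u) - 2) := by
    simp [ev2, ev1]; ring
  have e8 : ev2 p u [[7, 18, 11], [9, 12], [3]] = (1 + u + p) * ((1 + u + p) + (1 + u) - 1) +
      (2 * (1 + u + p) + (1 + u)) * ((1 + u + p) + 2 * (1 + u) - 1) := by
    simp [ev2, ev1]; ring
  have e9 : ev2 p u [[12, 12], [6]] = 2 * (2 * (1 + u + p) + (1 + u)) +
      2 * ((1 + u + p) + 2 * (1 + u)) := by
    simp [ev2, ev1]; ring
  have e10 : ev2 p u [[6]] = 6 := by simp [ev2, ev1]
  simp only [rowPoly, R3, List.map_cons, List.map_nil, List.sum_cons, List.sum_nil, e1, e2, e3,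
    e4, e5, e6, e7, e8, e9, e10, C_1, one_mul]
  ring

theorem row : RowSt := by
  intro F p u κ
  constructor
  · rw [← sem_of_chk p u (val [] F κ) chk3, ← ex_val]
    unfold sol Val_L
    rw [Val_D_apply]
    congr 1
    ext i j
    simp only [Matrix.of_apply]
    congr 1
    fin_cases i
    · exact r0 F p u
    · exact r1 F p u
    · exact r2 F p u
  · rw [← sem_of_chk p u (val [] F κ) chk4, ← ex_val]
    unfold sol Val_L
    rw [Val_D_apply]
    congr 1
    ext i j
    simp only [Matrix.of_apply]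
    congr 1
    fin_cases i
    · exact r0 F p u
    · exact r1 F p u
    · exact r2 F p u
    · exact r3 F p u

end Pool.Agent.H32.O4Row
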