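import Mathlib

/-!
Definitions for the strong `(i,j)`-scribability problem for stacked polytopes:
polytopes as pointed polyhedral cones in `ℝ^{d+1}`, face lattices, stacked polytopes, the
light cone, strong cutting and strong avoiding.
-/

open scoped BigOperators

namespace Pool.Agent.H32.Scrib

/-- The ambient space `ℝ^{d+1}` with coordinates `x 0, ..., x d`. -/
abbrev E (d : ℕ) := Fin (d + 1) → ℝ

variable {d : ℕ}

/-- The quadratic form `q(x) = -x₀² + x₁² + ... + x_d²`. -/
def q (x : E d) : ℝ := -(x 0) ^ 2 + ∑ i : Fin d, (x i.succ) ^ 2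

/-- The solid light cone `B = {x : q x ≤ 0, x₀ ≥ 0}` (in the chart `x₀ = 1`: the closed unit
ball). Its boundary is the light cone `S`. -/
def lightBall (d : ℕ) : Set (E d) := {x | q x ≤ 0 ∧ 0 ≤ x 0}

/-- The convex cone `{∑ c_a V_a : c_a ≥ 0}` generated by the vectors `V a`, `a ∈ A`. -/
def coneOn {ι : Type*} (V : ι → E d) (A : Finset ι) : Set (E d) :=
  {x | ∃ c : ι → ℝ, (∀ a ∈ A, 0 ≤ c a) ∧ x = ∑ a ∈ A, c a • V a}

/-- `K` is a realization of a `d`-polytope: a pointed, `(d+1)`-dimensional polyhedral cone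
`cone(V)` in `ℝ^{d+1}`, with `V` finite. -/
structure IsRealization (K : Set (E d)) : Prop where
  /-- `K` is generated by finitely many vectors. -/
  finGen : ∃ V : Finset (E d), K = coneOn (fun v : E d => v) V
  /-- `K` is pointed. -/
  pointed : ∀ x ∈ K, -x ∈ K → x = 0
  /-- `K` is `(d+1)`-dimensional. -/
  fullDim : Submodule.span ℝ K = ⊤

/-- `F` is a face of the polyhedral cone `K`: the intersection of `K` with a supporting linear
hyperplane `f = 0`, where `f ≥ 0` on `K` (or `K` itself, for `f = 0`). -/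
def IsFace (K F : Set (E d)) : Prop :=
  ∃ f : E d →ₗ[ℝ] ℝ, (∀ x ∈ K, 0 ≤ f x) ∧ F = {x | x ∈ K ∧ f x = 0}

/-- `F` is a `k`-face of the polytope realized by `K`, i.e. a `(k+1)`-dimensional face of `K`. -/
def IsKFace (K : Set (E d)) (k : ℕ) (F : Set (E d)) : Prop :=
  IsFace K F ∧ Module.finrank ℝ (Submodule.span ℝ F) = k + 1

/-- `F` is a facet of the `d`-polytope realized by `K`, i.e. a `d`-dimensional face of `K`. -/
def IsFacet (K F : Set (E d)) : Prop :=
  IsFace K F ∧ Module.finrank ℝ (Submodule.span ℝ F) = d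

/-- `K` and `K'` have the same combinatorial type: their face lattices (all faces, ordered by
inclusion) are isomorphic. -/
def CombEquiv (K K' : Set (E d)) : Prop :=
  Nonempty ({F : Set (E d) // IsFace K F} ≃o {F : Set (E d) // IsFace K' F})

/-- `F` strongly cuts the sphere: the relative interior of `F` contains a nonzero vector of `B`. -/
def StronglyCuts (F : Set (E d)) : Prop :=
  ∃ x ∈ intrinsicInterior ℝ F, x ∈ lightBall d ∧ x ≠ 0

/-- `F` strongly avoids the sphere: there is a hyperplane `f = 0` supporting `K`, cutting out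
exactly `F`, such that `B` lies in the closed half-space `f ≥ 0` containing `K`. -/
def StronglyAvoids (K F : Set (E d)) : Prop :=
  ∃ f : E d →ₗ[ℝ] ℝ, (∀ x ∈ K, 0 ≤ f x) ∧ F = {x | x ∈ K ∧ f x = 0} ∧ ∀ x ∈ lightBall d, 0 ≤ f x

/-- `K` is `(i,j)`-scribed: every `i`-face strongly avoids and every `j`-face strongly cuts
the sphere. -/
def Scribed (i j : ℕ) (K : Set (E d)) : Prop :=
  (∀ F, IsKFace K i F → StronglyAvoids K F) ∧ (∀ F, IsKFace K j F → StronglyCuts F)

/-- Stacked `d`-polytopes (as cones): a `d`-simplex, or the result of adding to a stacked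
polytope `K` a new vertex `v` beyond exactly one facet `F` (and beneath every other facet). -/
inductive Stacked (d : ℕ) : Set (E d) → Prop
  | simplex (V : Fin (d + 1) → E d) (hV : LinearIndependent ℝ V) :
      Stacked d (coneOn V Finset.univ)
  | stack (K F : Set (E d)) (v : E d) (hK : Stacked d K) (hF : IsFacet K F)
      (beyond : ∀ f : E d →ₗ[ℝ] ℝ, (∀ x ∈ K, 0 ≤ f x) → F = {x | x ∈ K ∧ f x = 0} → f v < 0)
      (beneath : ∀ G, IsFacet K G → G ≠ F →
        ∀ f : E d →ₗ[ℝ] ℝ, (∀ x ∈ K, 0 ≤ f x) → G = {x | x ∈ K ∧ f x = 0} → 0 < f v) :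
      Stacked d {z | ∃ y ∈ K, ∃ t : ℝ, 0 ≤ t ∧ z = y + t • v}

end Pool.Agent.H32.Scrib
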