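import Mathlib
import Pool.Agent.H32.ScribDefs

/-!
Lorentzian linear algebra in `ℝ^{d+1}` used for the scribability problem.
-/

open scoped BigOperators

namespace Pool.Agent.H32.Scrib

/-- The Lorentz form `-x₀ y₀ + x₁ y₁ + ... + x_d y_d`, whose quadratic form is `q`. -/
def lor {d : ℕ} (x y : E d) : ℝ := -(x 0 * y 0) + ∑ i : Fin d, x i.succ * y i.succ

variable {d : ℕ}

lemma q_eq (x : E d) : q x = lor x x := by
  unfold q lor
  congr 1
  · ring
  · exact Finset.sum_congr rfl (fun i _ => by ring)

lemma mem_lightBall {x : E d} : x ∈ lightBall d ↔ lor x x ≤ 0 ∧ 0 ≤ x 0 := by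
  rw [← q_eq]; rfl

lemma lor_comm (x y : E d) : lor x y = lor y x := by
  unfold lor; congr 1
  · ring
  · exact Finset.sum_congr rfl (fun i _ => by ring)

lemma lor_add_left (x y z : E d) : lor (x + y) z = lor x z + lor y z := by
  unfold lor; simp only [Pi.add_apply, add_mul, Finset.sum_add_distrib]; ring

lemma lor_smul_left (c : ℝ) (x z : E d) : lor (c • x) z = c * lor x z := by
  unfold lor; simp only [Pi.smul_apply, smul_eq_mul, mul_assoc, ← Finset.mul_sum]; ring

lemma lor_add_right (x y z : E d) : lor x (y + z) = lor x y + lor x z := by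
  rw [lor_comm, lor_add_left, lor_comm y, lor_comm z]

lemma lor_smul_right (c : ℝ) (x z : E d) : lor x (c • z) = c * lor x z := by
  rw [lor_comm, lor_smul_left, lor_comm]

@[simp] lemma lor_zero_left (z : E d) : lor 0 z = 0 := by simp [lor]
@[simp] lemma lor_zero_right (z : E d) : lor z 0 = 0 := by simp [lor]

lemma lor_neg_left (x z : E d) : lor (-x) z = - lor x z := by
  have := lor_smul_left (-1) x z; simpa using this

lemma lor_neg_right (x z : E d) : lor x (-z) = - lor x z := by
  have := lor_smul_right (-1) x z; simpa using this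

lemma lor_sub_left (x y z : E d) : lor (x - y) z = lor x z - lor y z := by
  rw [sub_eq_add_neg, lor_add_left, lor_neg_left]; ring

lemma lor_sub_right (x y z : E d) : lor x (y - z) = lor x y - lor x z := by
  rw [sub_eq_add_neg, lor_add_right, lor_neg_right]; ring

lemma lor_sum_right {ι : Type*} (s : Finset ι) (x : E d) (f : ι → E d) :
    lor x (∑ i ∈ s, f i) = ∑ i ∈ s, lor x (f i) := by
  classical
  induction s using Finset.induction_on with
  | empty => simp
  | insert a s ha ih => rw [Finset.sum_insert ha, Finset.sum_insert ha, lor_add_right, ih]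

lemma lor_sum_left {ι : Type*} (s : Finset ι) (x : E d) (f : ι → E d) :
    lor (∑ i ∈ s, f i) x = ∑ i ∈ s, lor (f i) x := by
  rw [lor_comm, lor_sum_right]; exact Finset.sum_congr rfl (fun i _ => lor_comm _ _)

/-- `lor x` as a linear functional. -/
def lorL (x : E d) : E d →ₗ[ℝ] ℝ where
  toFun y := lor x y
  map_add' := lor_add_right x
  map_smul' c y := by simp [lor_smul_right]

@[simp] lemma lorL_apply (x y : E d) : lorL x y = lor x y := rfl

/-- Every linear functional is represented by the Lorentz form. -/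
lemma exists_lor_repr (f : E d →ₗ[ℝ] ℝ) : ∃ y : E d, ∀ x, f x = lor y x := by
  classical
  refine ⟨Fin.cons (-(f (Pi.single 0 1))) (fun i => f (Pi.single i.succ 1)), fun x => ?_⟩
  have hx : x = ∑ i : Fin (d+1), x i • (Pi.single i (1:ℝ) : E d) := by
    funext j; simp [Finset.sum_apply, Pi.single_apply]
  conv_lhs => rw [hx]
  rw [map_sum, Fin.sum_univ_succ]
  simp only [map_smul, smul_eq_mul, lor, Fin.cons_zero, Fin.cons_succ]
  have : ∑ i : Fin d, x i.succ * f (Pi.single i.succ 1) = ∑ i : Fin d, f (Pi.single i.succ 1) * x i.succ :=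
    Finset.sum_congr rfl (fun i _ => mul_comm _ _)
  rw [this]; ring

/-- nondegeneracy: a vector Lorentz-orthogonal to a spanning family is zero. -/
lemma eq_zero_of_lor_span {S : Set (E d)} (hS : Submodule.span ℝ S = ⊤) {y : E d}
    (h : ∀ x ∈ S, lor y x = 0) : y = 0 := by
  have h2 : ∀ x : E d, lor y x = 0 := by
    intro x
    have hx : x ∈ Submodule.span ℝ S := by rw [hS]; trivial
    induction hx using Submodule.span_induction with
    | mem x hx => exact h x hx
    | zero => simp
    | add a b _ _ ha hb => rw [lor_add_right, ha, hb, add_zero]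
    | smul c a _ ha => rw [lor_smul_right, ha, mul_zero]
  funext i
  refine Fin.cases ?_ (fun j => ?_) i
  · have := h2 (Pi.single 0 1)
    simp [lor] at this
    simpa using this
  · have := h2 (Pi.single j.succ 1)
    simp [lor, Pi.single_apply] at this
    simpa using this

/-- spatial part nonneg -/
lemma lor_self_of_zero {y : E d} (h0 : y 0 = 0) : 0 ≤ lor y y := by
  unfold lor; rw [h0]; simp
  exact Finset.sum_nonneg (fun i _ => mul_self_nonneg _)

lemma eq_zero_of_lor_self_of_zero {y : E d} (h0 : y 0 = 0) (h : lor y y ≤ 0) : y = 0 := by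
  unfold lor at h; rw [h0] at h
  have h1 : ∑ i : Fin d, y i.succ * y i.succ = 0 :=
    le_antisymm (by simpa using h) (Finset.sum_nonneg (fun i _ => mul_self_nonneg _))
  have h2 := (Finset.sum_eq_zero_iff_of_nonneg (fun i _ => mul_self_nonneg _)).1 h1
  funext i
  refine Fin.cases h0 (fun j => ?_) i
  simpa using h2 j (Finset.mem_univ _)

/-- Key lemma: if `x0 ≠ 0` is causal, `n ≠ 0` is orthogonal to it and causal, then `x0` is a
multiple of `n` and `n` is null. -/
lemma causal_orth {x0 n : E d} (hx : lor x0 x0 ≤ 0) (hn0 : n ≠ 0)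
    (horth : lor x0 n = 0) (hn : lor n n ≤ 0) (hx0 : x0 ≠ 0) : (∃ c : ℝ, x0 = c • n) ∧ lor n n = 0 := by
  have hn00 : n 0 ≠ 0 := fun h => hn0 (eq_zero_of_lor_self_of_zero h hn)
  set c := x0 0 / n 0 with hc
  have hy0 : (x0 - c • n) 0 = 0 := by
    simp [hc]; field_simp; ring
  have hq : lor (x0 - c • n) (x0 - c • n) = lor x0 x0 + c ^ 2 * lor n n := by
    rw [lor_sub_left, lor_sub_right, lor_sub_right, lor_smul_left, lor_smul_left, lor_smul_right,
      lor_smul_right, lor_comm n x0, horth]; ring
  have hle : lor (x0 - c • n) (x0 - c • n) ≤ 0 := by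
    rw [hq]; nlinarith [sq_nonneg c]
  have hzero := eq_zero_of_lor_self_of_zero hy0 hle
  have hxc : x0 = c • n := sub_eq_zero.1 hzero
  refine ⟨⟨c, hxc⟩, ?_⟩
  have h1 : lor x0 x0 + c^2 * lor n n = 0 := by rw [← hq, hzero]; simp
  have hcne : c ≠ 0 := by
    rintro h; apply hx0; rw [hxc, h, zero_smul]
  have : c^2 * lor n n = 0 := by
    nlinarith [sq_nonneg c, mul_nonneg (sq_nonneg c) (neg_nonneg.2 hn)]
  rcases mul_eq_zero.1 this with h | h
  · exact absurd (pow_eq_zero_iff (two_ne_zero)|>.1 h) hcne
  · exact h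

lemma lor_nonneg_of_orth {x0 n : E d} (hx : lor x0 x0 ≤ 0) (hx0 : x0 ≠ 0)
    (horth : lor x0 n = 0) : 0 ≤ lor n n := by
  by_contra h
  push Not at h
  have hn0 : n ≠ 0 := by rintro rfl; simp at h
  have := (causal_orth hx hn0 horth h.le hx0).2
  linarith

/-- Cauchy-Schwarz on the orthogonal complement of a causal vector -/
lemma lor_cs {x0 y z : E d} (hx : lor x0 x0 ≤ 0) (hx0 : x0 ≠ 0)
    (hy : lor x0 y = 0) (hz : lor x0 z = 0) : (lor y z)^2 ≤ lor y y * lor z z := by
  have key : ∀ s t : ℝ, 0 ≤ s^2 * lor y y + 2 * s * t * lor y z + t^2 * lor z z := by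
    intro s t
    have h1 : lor x0 (s • y + t • z) = 0 := by
      rw [lor_add_right, lor_smul_right, lor_smul_right, hy, hz]; ring
    have h2 := lor_nonneg_of_orth hx hx0 h1
    have h3 : lor (s • y + t • z) (s • y + t • z)
        = s^2 * lor y y + 2 * s * t * lor y z + t^2 * lor z z := by
      rw [lor_add_left, lor_add_right, lor_add_right]
      simp only [lor_smul_left, lor_smul_right]
      rw [lor_comm z y]; ring
    rwa [h3] at h2
  have hzz := lor_nonneg_of_orth hx hx0 hz
  rcases hzz.eq_or_lt with h0 | hpos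
  · -- lor z z = 0
    have h0' : lor z z = 0 := h0.symm
    rw [h0', mul_zero]
    have h1 := key 1
    simp only [h0'] at h1
    by_contra hne
    push Not at hne
    have hyz : lor y z ≠ 0 := by
      intro h; rw [h] at hne; simp at hne
    have h2 := h1 (-(lor y y + 1) / (2 * lor y z))
    have h3 : 2 * 1 * (-(lor y y + 1) / (2 * lor y z)) * lor y z = -(lor y y + 1) := by
      field_simp
    rw [h3] at h2
    linarith
  · have h1 := key (lor z z) (-(lor y z))
    have h2 : lor z z ^ 2 * lor y y + 2 * lor z z * -lor y z * lor y z + (-lor y z) ^ 2 * lor z z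
        = lor z z * (lor y y * lor z z - (lor y z)^2) := by ring
    rw [h2] at h1
    have := nonneg_of_mul_nonneg_right h1 hpos
    linarith

/-- The angle between two Lorentz unit vectors. -/
noncomputable def ang (x y : E d) : ℝ := Real.arccos (lor x y)

lemma ang_comm (x y : E d) : ang x y = ang y x := by unfold ang; rw [lor_comm]

lemma ang_nonneg (x y : E d) : 0 ≤ ang x y := Real.arccos_nonneg _

lemma ang_le_pi (x y : E d) : ang x y ≤ Real.pi := Real.arccos_le_pi _

lemma abs_lor_le_one {x0 y z : E d} (hx : lor x0 x0 ≤ 0) (hx0 : x0 ≠ 0)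
    (hy : lor x0 y = 0) (hz : lor x0 z = 0) (hyy : lor y y = 1) (hzz : lor z z = 1) :
    |lor y z| ≤ 1 := by
  have := lor_cs hx hx0 hy hz
  rw [hyy, hzz, mul_one] at this
  exact abs_le_one_iff_mul_self_le_one.2 (by nlinarith)

/-- Spherical triangle inequality in the (positive semidefinite) complement of a causal vector. -/
lemma ang_triangle {x0 x y z : E d} (h0 : lor x0 x0 ≤ 0) (h0' : x0 ≠ 0)
    (hx : lor x0 x = 0) (hy : lor x0 y = 0) (hz : lor x0 z = 0)
    (hxx : lor x x = 1) (hyy : lor y y = 1) (hzz : lor z z = 1) :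
    ang x z ≤ ang x y + ang y z := by
  set a := lor x y with ha
  set b := lor y z with hb
  set c := lor x z with hc
  have ha1 : |a| ≤ 1 := abs_lor_le_one h0 h0' hx hy hxx hyy
  have hb1 : |b| ≤ 1 := abs_lor_le_one h0 h0' hy hz hyy hzz
  have hc1 : |c| ≤ 1 := abs_lor_le_one h0 h0' hx hz hxx hzz
  rw [abs_le] at ha1 hb1 hc1
  have hcs : (c - a * b)^2 ≤ (1 - a^2) * (1 - b^2) := by
    have h1 : lor x0 (x - a • y) = 0 := by rw [lor_sub_right, lor_smul_right, hx, hy]; ring
    have h2 : lor x0 (z - b • y) = 0 := by rw [lor_sub_right, lor_smul_right, hz, hy]; ring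
    have h3 := lor_cs h0 h0' h1 h2
    have e1 : lor (x - a • y) (z - b • y) = c - a * b := by
      simp only [lor_sub_left, lor_sub_right, lor_smul_left, lor_smul_right, hyy, ← ha, ← hb, ← hc]
      ring
    have e2 : lor (x - a • y) (x - a • y) = 1 - a^2 := by
      simp only [lor_sub_left, lor_sub_right, lor_smul_left, lor_smul_right, hyy, hxx,
        lor_comm y x, ← ha]; ring
    have e3 : lor (z - b • y) (z - b • y) = 1 - b^2 := by
      simp only [lor_sub_left, lor_sub_right, lor_smul_left, lor_smul_right, hyy, hzz,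
        lor_comm z y, ← hb]; ring
    rwa [e1, e2, e3] at h3
  unfold ang
  rw [← ha, ← hb, ← hc]
  by_cases hpi : Real.pi ≤ Real.arccos a + Real.arccos b
  · exact le_trans (Real.arccos_le_pi _) hpi
  push Not at hpi
  have hcos : Real.cos (Real.arccos a + Real.arccos b) = a * b - Real.sqrt (1 - a^2) * Real.sqrt (1 - b^2) := by
    rw [Real.cos_add, Real.cos_arccos ha1.1 ha1.2, Real.cos_arccos hb1.1 hb1.2,
      Real.sin_arccos, Real.sin_arccos]
  have hle : a * b - Real.sqrt (1 - a^2) * Real.sqrt (1 - b^2) ≤ c := by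
    have h1 : |c - a*b| ≤ Real.sqrt (1 - a^2) * Real.sqrt (1 - b^2) := by
      rw [← Real.sqrt_mul (by nlinarith)]
      exact Real.abs_le_sqrt hcs
    have := neg_le_of_abs_le h1
    linarith
  calc Real.arccos c ≤ Real.arccos (Real.cos (Real.arccos a + Real.arccos b)) := by
        apply Real.arccos_le_arccos; rw [hcos]; exact hle
    _ = Real.arccos a + Real.arccos b := by
        apply Real.arccos_cos
        · have := Real.arccos_nonneg a; have := Real.arccos_nonneg b; linarith
        · exact hpi.le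

/-- Additivity of angles for a unit vector in the open cone spanned by two unit vectors. -/
lemma ang_add {x0 x y z : E d} (h0 : lor x0 x0 ≤ 0) (h0' : x0 ≠ 0)
    (hx : lor x0 x = 0) (hy : lor x0 y = 0) (hz : lor x0 z = 0)
    (hxx : lor x x = 1) (hyy : lor y y = 1) (hzz : lor z z = 1) {l m : ℝ} (hl : 0 < l) (hm : 0 < m)
    (hcomb : y = l • x + m • z) :
    ang x z = ang x y + ang y z := by
  set a := lor x y with ha
  set b := lor y z with hb
  set c := lor x z with hc
  have ha1 : |a| ≤ 1 := abs_lor_le_one h0 h0' hx hy hxx hyy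
  have hb1 : |b| ≤ 1 := abs_lor_le_one h0 h0' hy hz hyy hzz
  have hc1 : |c| ≤ 1 := abs_lor_le_one h0 h0' hx hz hxx hzz
  rw [abs_le] at ha1 hb1 hc1
  have e1 : a = l + m * c := by
    rw [ha, hcomb, lor_add_right, lor_smul_right, lor_smul_right, hxx, ← hc]; ring
  have e2 : b = l * c + m := by
    rw [hb, hcomb, lor_add_left, lor_smul_left, lor_smul_left, hzz, ← hc]; ring
  have e3 : l * a + m * b = 1 := by
    have : lor y y = l * lor x y + m * lor z y := by
      conv_lhs => rw [hcomb]
      rw [lor_add_left, lor_smul_left, lor_smul_left]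
      rw [← hcomb]
    rw [hyy, lor_comm z y, ← ha, ← hb] at this
    exact this.symm
  -- l (c - ab)... : c - a b = -(l/m) (1 - a^2)
  have e4 : m * (c - a * b) = - (l * (1 - a^2)) := by
    have : m * b = 1 - l * a := by linarith
    calc m * (c - a * b) = m * c - a * (m * b) := by ring
      _ = (a - l) - a * (1 - l * a) := by rw [this]; linarith
      _ = _ := by ring
  have e5 : m^2 * (1 - b^2) = l^2 * (1 - a^2) := by
    have : m * b = 1 - l * a := by linarith
    have h2 : l ^ 2 + 2 * l * m * c + m ^2 = 1 := by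
      rw [e1, e2] at e3; nlinarith
    have : m^2 * b^2 = (1 - l*a)^2 := by rw [← this]; ring
    have h3 : m^2 = 1 - l^2 - 2 * l * (a - l) := by
      have : m * c = a - l := by linarith
      nlinarith
    nlinarith
  have ha2 : 0 ≤ 1 - a^2 := by nlinarith
  have hb2 : 0 ≤ 1 - b^2 := by nlinarith
  unfold ang
  rw [← ha, ← hb, ← hc]
  have hcos : Real.cos (Real.arccos a + Real.arccos b) = a * b - Real.sqrt (1 - a^2) * Real.sqrt (1 - b^2) := by
    rw [Real.cos_add, Real.cos_arccos ha1.1 ha1.2, Real.cos_arccos hb1.1 hb1.2,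
      Real.sin_arccos, Real.sin_arccos]
  have hsq : Real.sqrt (1 - b^2) = (l / m) * Real.sqrt (1 - a^2) := by
    have : 1 - b^2 = (l/m)^2 * (1 - a^2) := by
      field_simp; linarith
    rw [this, Real.sqrt_mul (by positivity), Real.sqrt_sq (by positivity)]
  have hc' : c = a * b - Real.sqrt (1 - a^2) * Real.sqrt (1 - b^2) := by
    rw [hsq]
    have : Real.sqrt (1 - a^2) * (l / m * Real.sqrt (1 - a^2)) = (l/m) * (1 - a^2) := by
      rw [mul_left_comm, Real.mul_self_sqrt ha2]
    rw [this]
    field_simp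
    linarith
  have hle : Real.arccos a + Real.arccos b ≤ Real.pi := by
    have h1 : -b ≤ a := by
      have : 0 ≤ (l + m) * (1 + c) := by
        apply mul_nonneg <;> linarith
      have : a + b = (l + m) * (1 + c) := by rw [e1, e2]; ring
      linarith
    have h2 : Real.arccos a ≤ Real.arccos (-b) := Real.arccos_le_arccos h1
    rw [Real.arccos_neg] at h2
    linarith
  rw [hc', ← hcos]
  apply Real.arccos_cos
  · have := Real.arccos_nonneg a; have := Real.arccos_nonneg b; linarith
  · exact hle

end Pool.Agent.H32.Scrib
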