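import Mathlib
import Pool.Agent.H32.ScribLor

/-!
The main geometric inequality: the angle sum `W` of a facet over which a complete tree of
stackings is performed grows exponentially with the depth of the tree.
-/

open scoped BigOperators

namespace Pool.Agent.H32.Scrib

variable {d : ℕ}

/-- Linear independence of the vectors `U a`, `a ∈ T`. -/
def LI {ι : Type*} (U : ι → E d) (T : Finset ι) : Prop :=
  ∀ g : ι → ℝ, ∑ a ∈ T, g a • U a = 0 → ∀ a ∈ T, g a = 0

lemma LI.linearIndependent {ι : Type*} {U : ι → E d} {T : Finset ι} (h : LI U T) :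
    LinearIndependent ℝ (fun a : T => U a) := by
  have : LinearIndepOn ℝ U (T : Set ι) := by
    rw [linearIndepOn_finset_iff]
    exact h
  exact this

lemma LI.span_top {ι : Type*} {U : ι → E d} {T : Finset ι} (h : LI U T) (hc : T.card = d + 1) :
    Submodule.span ℝ (Set.range (fun a : T => U a)) = ⊤ := by
  apply h.linearIndependent.span_eq_top_of_card_eq_finrank'
  simp [hc]

lemma LI.mono {ι : Type*} {U : ι → E d} {T S : Finset ι} (h : LI U T) (hST : S ⊆ T) : LI U S := by
  classical
  intro g hg a ha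
  have := h (fun a => if a ∈ S then g a else 0) (by
    rw [← hg]
    simp only [ite_smul, zero_smul]
    rw [← Finset.sum_filter]
    apply Finset.sum_congr _ (fun _ _ => rfl)
    ext x; simp only [Finset.mem_filter]; exact ⟨fun h => h.2, fun h => ⟨hST h, h⟩⟩) a (hST ha)
  simpa [ha] using this

lemma LI.eq_zero {ι : Type*} {U : ι → E d} {T : Finset ι} (h : LI U T) (hc : T.card = d + 1)
    {y : E d} (hy : ∀ a ∈ T, lor y (U a) = 0) : y = 0 := by
  apply eq_zero_of_lor_span (h.span_top hc)
  rintro x ⟨a, rfl⟩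
  exact hy a a.2

lemma LI.exists_dual {ι : Type*} [DecidableEq ι] {U : ι → E d} {T : Finset ι} (h : LI U T) (hc : T.card = d + 1)
    {b : ι} (hb : b ∈ T) : ∃ y : E d, lor y (U b) = -1 ∧ ∀ a ∈ T, a ≠ b → lor y (U a) = 0 := by
  classical
  let B := Module.Basis.mk h.linearIndependent (h.span_top hc).ge
  obtain ⟨y, hy⟩ := exists_lor_repr (B.constr ℝ (fun a : T => if (a : ι) = b then (-1 : ℝ) else 0))
  refine ⟨y, ?_, ?_⟩
  · rw [← hy]
    have : U b = B ⟨b, hb⟩ := by simp [B]
    rw [this, Module.Basis.constr_basis]; simp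
  · intro a ha hab
    rw [← hy]
    have : U a = B ⟨a, ha⟩ := by simp [B]
    rw [this, Module.Basis.constr_basis]; simp [hab]

/-- A complete tree of stackings of depth `D` over the facet `F`, whose inner neighbour is `w`. -/
def STree (P : Finset ℕ → Prop) (U : ℕ → E d) : ℕ → Finset ℕ → ℕ → Prop
  | 0, _, _ => True
  | D+1, F, w => ∃ v, v ∉ F ∧ (∀ s ⊆ insert v F, s.card < d → P s) ∧ LI U (insert v F) ∧
      (∃ α : ℝ, α < 0 ∧ ∃ β : ℕ → ℝ, U w = α • U v + ∑ b ∈ F, β b • U b) ∧
      ∀ b ∈ F, STree P U D (insert v (F.erase b)) b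

lemma STree.mono {P P' : Finset ℕ → Prop} {U : ℕ → E d} (hPP : ∀ s, s.card < d → P s → P' s) :
    ∀ (D : ℕ) (F : Finset ℕ) (w : ℕ), STree P U D F w → STree P' U D F w
  | 0, _, _, _ => trivial
  | D+1, _, _, ⟨v, hv, h1, h2, h3, h4⟩ =>
      ⟨v, hv, fun s hs hc => hPP s hc (h1 s hs hc), h2, h3, fun b hb => STree.mono hPP D _ _ (h4 b hb)⟩

/-- `n` is the unit outward normal of the facet `F`, the vertex `w` being on the inner side. -/
structure IsNormal (U : ℕ → E d) (n : E d) (F : Finset ℕ) (w : ℕ) : Prop where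
  unit : lor n n = 1
  orth : ∀ a ∈ F, lor n (U a) = 0
  neg : lor n (U w) < 0

section main

variable {U : ℕ → E d} {A : Finset ℕ} {P : Finset ℕ → Prop} {j : ℕ}

/-- cutting hypothesis: faces with `j+1` vertices strongly cut the ball -/
def CutHyp (U : ℕ → E d) (P : Finset ℕ → Prop) (j : ℕ) : Prop :=
  ∀ s, P s → s.card = j + 1 → ∃ c : ℕ → ℝ, (∀ a ∈ s, 0 < c a) ∧ ∑ a ∈ s, c a • U a ∈ lightBall d

/-- avoiding hypothesis for the apex of a simplex all of whose small faces are faces -/
def AvoidHyp (U : ℕ → E d) (P : Finset ℕ → Prop) : Prop :=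
  ∀ v F, v ∉ F → F.card = d → (∀ s ⊆ insert v F, s.card < d → P s) →
    ∃ f : E d →ₗ[ℝ] ℝ, f (U v) = 0 ∧ (∀ b ∈ F, 0 < f (U b)) ∧ ∀ x ∈ lightBall d, 0 ≤ f x

lemma sum_pos_ne_zero {J : Finset ℕ} (hLI : LI U J) (hJ : J.Nonempty) {c : ℕ → ℝ}
    (hc : ∀ a ∈ J, 0 < c a) : ∑ a ∈ J, c a • U a ≠ 0 := by
  intro h
  obtain ⟨a, ha⟩ := hJ
  have := hLI c h a ha
  have := hc a ha
  linarith

lemma exists_causal (hcut : CutHyp U P j) {R : Finset ℕ} (hLI : LI U R)
    (hR : j + 1 ≤ R.card) (hP : ∀ s ⊆ R, s.card < d → P s) (hjd : j + 1 < d) :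
    ∃ x0 : E d, x0 ≠ 0 ∧ lor x0 x0 ≤ 0 ∧ ∀ y, (∀ a ∈ R, lor y (U a) = 0) → lor x0 y = 0 := by
  obtain ⟨J, hJR, hJ⟩ := Finset.exists_subset_card_eq hR
  obtain ⟨c, hc, hx⟩ := hcut J (hP J hJR (by omega)) hJ
  refine ⟨_, sum_pos_ne_zero (hLI.mono hJR) (Finset.card_pos.1 (by omega)) hc, (mem_lightBall.1 hx).1, ?_⟩
  intro y hy
  rw [lor_comm, lor_sum_right]
  exact Finset.sum_eq_zero (fun a ha => by rw [lor_smul_right, hy a (hJR ha), mul_zero])

lemma pos_of_orth (hcut : CutHyp U P j) {R : Finset ℕ} (hLI : LI U R)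
    (hR : j + 2 ≤ R.card) (hP : ∀ s ⊆ R, s.card < d → P s) (hjd : j + 1 < d)
    {y : E d} (hy : ∀ a ∈ R, lor y (U a) = 0) (hy0 : y ≠ 0) : 0 < lor y y := by
  classical
  obtain ⟨K, hKR, hK⟩ := Finset.exists_subset_card_eq hR
  obtain ⟨a, ha⟩ : K.Nonempty := Finset.card_pos.1 (by omega)
  obtain ⟨b, hb, hab⟩ : ∃ b ∈ K, b ≠ a := by
    have : 1 < K.card := by omega
    obtain ⟨b, hb, h⟩ := Finset.exists_mem_ne this a
    exact ⟨b, hb, h⟩
  by_contra hcon
  push Not at hcon
  have hJ1 : (K.erase a) ⊆ R := (Finset.erase_subset _ _).trans hKR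
  have hJ2 : (K.erase b) ⊆ R := (Finset.erase_subset _ _).trans hKR
  have hc1 : (K.erase a).card = j + 1 := by rw [Finset.card_erase_of_mem ha, hK]; rfl
  have hc2 : (K.erase b).card = j + 1 := by rw [Finset.card_erase_of_mem hb, hK]; rfl
  obtain ⟨c1, hc1p, hx1⟩ := hcut _ (hP _ hJ1 (by omega)) hc1
  obtain ⟨c2, hc2p, hx2⟩ := hcut _ (hP _ hJ2 (by omega)) hc2
  have hn1 := sum_pos_ne_zero (hLI.mono hJ1) (Finset.card_pos.1 (by omega)) hc1p
  have hn2 := sum_pos_ne_zero (hLI.mono hJ2) (Finset.card_pos.1 (by omega)) hc2p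
  have ho1 : lor (∑ a ∈ K.erase a, c1 a • U a) y = 0 := by
    rw [lor_comm, lor_sum_right]
    exact Finset.sum_eq_zero (fun e he => by rw [lor_smul_right, hy e (hJ1 he), mul_zero])
  have ho2 : lor (∑ a ∈ K.erase b, c2 a • U a) y = 0 := by
    rw [lor_comm, lor_sum_right]
    exact Finset.sum_eq_zero (fun e he => by rw [lor_smul_right, hy e (hJ2 he), mul_zero])
  obtain ⟨⟨k1, hk1⟩, -⟩ := causal_orth (mem_lightBall.1 hx1).1 hy0 ho1 hcon hn1
  obtain ⟨⟨k2, hk2⟩, -⟩ := causal_orth (mem_lightBall.1 hx2).1 hy0 ho2 hcon hn2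
  have hk2' : k2 ≠ 0 := by rintro rfl; rw [zero_smul] at hk2; exact hn2 hk2
  -- k2 x1 = k1 x2
  have heq : ∑ e ∈ K, ((if e = a then 0 else k2 * c1 e) - (if e = b then 0 else k1 * c2 e)) • U e = 0 := by
    have e1 : ∑ e ∈ K, (if e = a then (0:ℝ) else k2 * c1 e) • U e = k2 • ∑ e ∈ K.erase a, c1 e • U e := by
      rw [← Finset.add_sum_erase K _ ha]
      simp only [if_true, zero_smul, zero_add]
      rw [Finset.smul_sum]
      refine Finset.sum_congr rfl (fun e he => ?_)
      rw [if_neg (Finset.ne_of_mem_erase he), smul_smul]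
    have e2 : ∑ e ∈ K, (if e = b then (0:ℝ) else k1 * c2 e) • U e = k1 • ∑ e ∈ K.erase b, c2 e • U e := by
      rw [← Finset.add_sum_erase K _ hb]
      simp only [if_true, zero_smul, zero_add]
      rw [Finset.smul_sum]
      refine Finset.sum_congr rfl (fun e he => ?_)
      rw [if_neg (Finset.ne_of_mem_erase he), smul_smul]
    simp only [sub_smul, Finset.sum_sub_distrib]
    rw [e1, e2, hk1, hk2, smul_smul, smul_smul, mul_comm, sub_self]
  have h3 := (hLI.mono hKR) _ heq b hb
  simp only [hab, if_true, if_false, sub_zero] at h3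
  have h4 := hc1p b (Finset.mem_erase.2 ⟨hab, hb⟩)
  rcases mul_eq_zero.1 h3 with h | h
  · exact hk2' h
  · linarith

/-- unit normal of the facet of a simplex `T` opposite to `b`. -/
lemma exists_normal (hcut : CutHyp U P j) (hjd : j + 3 ≤ d) {T : Finset ℕ} (hLI : LI U T) (hT : T.card = d + 1)
    {R : Finset ℕ} (hRT : R ⊆ T) (hR : R.card + 1 = d) (hP : ∀ s ⊆ R, s.card < d → P s)
    {b : ℕ} (hb : b ∈ T) (hbR : b ∉ R) :
    ∃ n : E d, IsNormal U n (T.erase b) b := by
  obtain ⟨y, hy1, hy2⟩ := hLI.exists_dual hT hb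
  have hy0 : y ≠ 0 := by rintro rfl; simp at hy1
  have hpos : 0 < lor y y := by
    apply pos_of_orth hcut (hLI.mono hRT) (by omega) hP (by omega) _ hy0
    intro a ha
    exact hy2 a (hRT ha) (by rintro rfl; exact hbR ha)
  refine ⟨(Real.sqrt (lor y y))⁻¹ • y, ?_, ?_, ?_⟩
  · rw [lor_smul_left, lor_smul_right]
    have hs := Real.mul_self_sqrt hpos.le
    have hs0 : Real.sqrt (lor y y) ≠ 0 := (Real.sqrt_pos.2 hpos).ne'
    field_simp
    rw [sq]; exact hs.symm
  · intro a ha
    rw [lor_smul_left, hy2 a (Finset.mem_of_mem_erase ha) (Finset.ne_of_mem_erase ha), mul_zero]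
  · rw [lor_smul_left, hy1]
    have := inv_pos.2 (Real.sqrt_pos.2 hpos)
    linarith

/-- A choice of unit normals at the ridges of the final polytope. -/
structure RidgeNormals (U : ℕ → E d) (A : Finset ℕ) (P : Finset ℕ → Prop) (m : Finset ℕ → E d) : Prop where
  unit : ∀ R, P R → R.card + 1 = d → LI U R → (∀ s ⊆ R, s.card < d → P s) → lor (m R) (m R) = 1
  orth : ∀ R, P R → R.card + 1 = d → LI U R → (∀ s ⊆ R, s.card < d → P s) → ∀ a ∈ R, lor (m R) (U a) = 0
  neg : ∀ R, P R → R.card + 1 = d → LI U R → (∀ s ⊆ R, s.card < d → P s) → ∀ a ∈ A, a ∉ R → lor (m R) (U a) < 0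


lemma node (hcut : CutHyp U P j) (hav : AvoidHyp U P) (hjd : j + 3 ≤ d)
    (hPA : ∀ s, P s → s ⊆ A) {m : Finset ℕ → E d} (hm : RidgeNormals U A P m)
    {D : ℕ} {F : Finset ℕ} {w : ℕ} {n : E d} (hF : F.card = d) (hn : IsNormal U n F w)
    (hT : STree P U (D+1) F w) :
    ∃ (v : ℕ) (nb : ℕ → E d), v ∉ F ∧ (∀ b ∈ F, IsNormal U (nb b) (insert v (F.erase b)) b) ∧
      (∀ b ∈ F, STree P U D (insert v (F.erase b)) b) ∧
      (∀ b ∈ F, ang n (m (F.erase b)) = ang n (nb b) + ang (nb b) (m (F.erase b))) ∧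
      (∀ b ∈ F, ∀ c ∈ F, b ≠ c → ang (nb b) (nb c) =
        ang (nb b) (m (insert v ((F.erase b).erase c))) + ang (nb c) (m (insert v ((F.erase b).erase c)))) ∧
      (∀ b ∈ F, ∀ c ∈ F, b ≠ c → ang (nb b) (nb c) ≤ ang n (nb b) + ang n (nb c)) ∧
      (∃ b ∈ F, ∃ c ∈ F, b ≠ c ∧ Real.pi / 2 < ang (nb b) (nb c)) := by
  classical
  obtain ⟨v, hv, hsmall, hLI, ⟨α, hα, β, hw⟩, hsub⟩ := hT
  have hTc : (insert v F).card = d + 1 := by rw [Finset.card_insert_of_notMem hv, hF]
  have hvT : v ∈ insert v F := Finset.mem_insert_self _ _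
  have hFT : F ⊆ insert v F := Finset.subset_insert _ _
  -- normals
  have hex : ∀ b ∈ F, ∃ y : E d, IsNormal U y (insert v (F.erase b)) b := by
    intro b hb
    have hbv : b ≠ v := by rintro rfl; exact hv hb
    have hR : F.erase b ⊆ insert v F := (Finset.erase_subset _ _).trans hFT
    have := exists_normal (R := F.erase b) hcut hjd hLI hTc hR
      (by rw [Finset.card_erase_of_mem hb, hF]; omega)
      (fun s hs hc => hsmall s (hs.trans hR) hc) (hFT hb) (Finset.notMem_erase _ _)
    rwa [Finset.erase_insert_of_ne hbv.symm] at this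
  choose! nb hnb using hex
  -- n at v
  have hnv : 0 < lor n (U v) := by
    have h1 : lor n (U w) = α * lor n (U v) := by
      rw [hw, lor_add_right, lor_smul_right, lor_sum_right]
      rw [Finset.sum_eq_zero (fun b hb => by rw [lor_smul_right, hn.orth b hb, mul_zero])]
      ring
    have h2 := hn.neg
    rw [h1] at h2
    nlinarith
  have hnbv : ∀ b ∈ F, lor (nb b) (U v) = 0 := fun b hb =>
    (hnb b hb).orth v (Finset.mem_insert_self _ _)
  have hnba : ∀ b ∈ F, ∀ a ∈ F, a ≠ b → lor (nb b) (U a) = 0 := fun b hb a ha hab =>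
    (hnb b hb).orth a (Finset.mem_insert_of_mem (Finset.mem_erase.2 ⟨hab, ha⟩))
  have hnbb : ∀ b ∈ F, lor (nb b) (U b) < 0 := fun b hb => (hnb b hb).neg
  have hnbu : ∀ b ∈ F, lor (nb b) (nb b) = 1 := fun b hb => (hnb b hb).unit
  have hgamma : ∀ b ∈ F, ∀ c ∈ F, b ≠ c → ang (nb b) (nb c) ≤ ang n (nb b) + ang n (nb c) := by
    intro b hb c hc hbc
    have hYF : (F.erase b).erase c ⊆ F := (Finset.erase_subset _ _).trans (Finset.erase_subset _ _)
    have hYT := hYF.trans hFT
    have hYc : ((F.erase b).erase c).card = d - 2 := by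
      rw [Finset.card_erase_of_mem (Finset.mem_erase.2 ⟨hbc.symm, hc⟩), Finset.card_erase_of_mem hb, hF]; omega
    obtain ⟨x0, h0, h1, h2⟩ := exists_causal hcut (hLI.mono hYT) (by omega)
      (fun s hs hc => hsmall s (hs.trans hYT) hc) (by omega)
    have := ang_triangle h1 h0
      (h2 (nb b) (fun a ha => hnba b hb a (hYF ha) (Finset.ne_of_mem_erase (Finset.mem_of_mem_erase ha))))
      (h2 n (fun a ha => hn.orth a (hYF ha)))
      (h2 (nb c) (fun a ha => hnba c hc a (hYF ha) (Finset.ne_of_mem_erase ha)))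
      (hnbu b hb) hn.unit (hnbu c hc)
    rwa [ang_comm (nb b) n] at this
  refine ⟨v, nb, hv, hnb, hsub, ?_, ?_, hgamma, ?_⟩
  · -- alpha
    intro b hb
    have hRF : F.erase b ⊆ F := Finset.erase_subset _ _
    have hRT := hRF.trans hFT
    have hRc : (F.erase b).card + 1 = d := by rw [Finset.card_erase_of_mem hb, hF]; omega
    have hRP : P (F.erase b) := hsmall _ hRT (by omega)
    have hRs : ∀ s ⊆ F.erase b, s.card < d → P s := fun s hs hc => hsmall s (hs.trans hRT) hc
    have hRLI : LI U (F.erase b) := hLI.mono hRT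
    have hmu := hm.unit _ hRP hRc hRLI hRs
    have hmo := hm.orth _ hRP hRc hRLI hRs
    have hbv : b ≠ v := by rintro rfl; exact hv hb
    have hvA : v ∈ A := by
      have : P {v} := hsmall {v} (Finset.singleton_subset_iff.2 hvT) (by simp; omega)
      exact hPA _ this (Finset.mem_singleton_self v)
    have hbA : b ∈ A := by
      have : P {b} := hsmall {b} (Finset.singleton_subset_iff.2 (hFT hb)) (by simp; omega)
      exact hPA _ this (Finset.mem_singleton_self b)
    have hmb := hm.neg _ hRP hRc hRLI hRs b hbA (Finset.notMem_erase _ _)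
    have hmv := hm.neg _ hRP hRc hRLI hRs v hvA (fun h => hv (hRF h))
    set M := m (F.erase b) with hM
    obtain ⟨x0, h0, h1, h2⟩ := exists_causal hcut hRLI (by omega) hRs (by omega)
    set mu := lor (nb b) (U b) / lor M (U b) with hmu'
    set la := -(mu * lor M (U v)) / lor n (U v) with hla
    have hmupos : 0 < mu := div_pos_of_neg_of_neg (hnbb b hb) hmb
    have hlapos : 0 < la := by
      apply div_pos _ hnv
      nlinarith
    refine ang_add (l := la) (m := mu) h1 h0
      (h2 n (fun a ha => hn.orth a (hRF ha)))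
      (h2 (nb b) (fun a ha => hnba b hb a (hRF ha) (Finset.ne_of_mem_erase ha)))
      (h2 M hmo) hn.unit (hnbu b hb) hmu hlapos hmupos ?_
    rw [← sub_eq_zero]
    apply hLI.eq_zero hTc
    intro a ha
    rw [lor_sub_left, lor_add_left, lor_smul_left, lor_smul_left]
    rcases Finset.mem_insert.1 ha with rfl | haF
    · rw [hnbv b hb, hla]; field_simp; ring
    · by_cases hab : a = b
      · subst hab
        rw [hn.orth a haF, hmu']
        have := hmb.ne
        field_simp; ring
      · rw [hnba b hb a haF hab, hn.orth a haF, hmo a (Finset.mem_erase.2 ⟨hab, haF⟩)]; ring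
  · -- beta
    intro b hb c hc hbc
    set R := insert v ((F.erase b).erase c) with hRdef
    have hYF : (F.erase b).erase c ⊆ F := (Finset.erase_subset _ _).trans (Finset.erase_subset _ _)
    have hRT : R ⊆ insert v F := Finset.insert_subset_insert _ hYF
    have hbv : b ≠ v := by rintro rfl; exact hv hb
    have hcv : c ≠ v := by rintro rfl; exact hv hc
    have hRc : R.card + 1 = d := by
      rw [hRdef, Finset.card_insert_of_notMem (fun h => hv (hYF h)),
        Finset.card_erase_of_mem (Finset.mem_erase.2 ⟨hbc.symm, hc⟩), Finset.card_erase_of_mem hb, hF]; omega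
    have hRP : P R := hsmall _ hRT (by omega)
    have hRs : ∀ s ⊆ R, s.card < d → P s := fun s hs hc => hsmall s (hs.trans hRT) hc
    have hRLI : LI U R := hLI.mono hRT
    have hmu := hm.unit _ hRP hRc hRLI hRs
    have hmo := hm.orth _ hRP hRc hRLI hRs
    have hbA : b ∈ A := by
      have : P {b} := hsmall {b} (Finset.singleton_subset_iff.2 (hFT hb)) (by simp; omega)
      exact hPA _ this (Finset.mem_singleton_self b)
    have hcA : c ∈ A := by
      have : P {c} := hsmall {c} (Finset.singleton_subset_iff.2 (hFT hc)) (by simp; omega)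
      exact hPA _ this (Finset.mem_singleton_self c)
    have hbR : b ∉ R := by
      rw [hRdef, Finset.mem_insert, not_or]
      exact ⟨hbv, fun h => by simp at h⟩
    have hcR : c ∉ R := by
      rw [hRdef, Finset.mem_insert, not_or]
      exact ⟨hcv, fun h => by simp at h⟩
    have hmb := hm.neg _ hRP hRc hRLI hRs b hbA hbR
    have hmc := hm.neg _ hRP hRc hRLI hRs c hcA hcR
    set M := m R with hM
    obtain ⟨x0, h0, h1, h2⟩ := exists_causal hcut hRLI (by omega) hRs (by omega)
    set la := lor M (U b) / lor (nb b) (U b) with hla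
    set mu := lor M (U c) / lor (nb c) (U c) with hmu'
    have hmupos : 0 < mu := div_pos_of_neg_of_neg hmc (hnbb c hc)
    have hlapos : 0 < la := div_pos_of_neg_of_neg hmb (hnbb b hb)
    have hRmem : ∀ a ∈ R, a = v ∨ (a ∈ F ∧ a ≠ b ∧ a ≠ c) := by
      intro a ha
      rcases Finset.mem_insert.1 ha with h | h
      · exact Or.inl h
      · right
        rw [Finset.mem_erase, Finset.mem_erase] at h
        exact ⟨h.2.2, h.2.1, h.1⟩
    have := ang_add (x := nb b) (y := M) (z := nb c) (l := la) (m := mu) h1 h0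
      (h2 (nb b) (fun a ha => by
        rcases hRmem a ha with rfl | ⟨h3, h4, h5⟩
        · exact hnbv b hb
        · exact hnba b hb a h3 h4))
      (h2 M hmo)
      (h2 (nb c) (fun a ha => by
        rcases hRmem a ha with rfl | ⟨h3, h4, h5⟩
        · exact hnbv c hc
        · exact hnba c hc a h3 h5)) (hnbu b hb) hmu (hnbu c hc) hlapos hmupos ?_
    · rwa [ang_comm M] at this
    rw [← sub_eq_zero]
    apply hLI.eq_zero hTc
    intro a ha
    rw [lor_sub_left, lor_add_left, lor_smul_left, lor_smul_left]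
    rcases Finset.mem_insert.1 ha with rfl | haF
    · rw [hnbv b hb, hnbv c hc, hmo a (Finset.mem_insert_self _ _)]; ring
    · by_cases hab : a = b
      · subst hab
        rw [hnba c hc a haF hbc, hla]
        have := (hnbb a haF).ne
        field_simp; ring
      · by_cases hac : a = c
        · subst hac
          rw [hnba b hb a haF hab, hmu']
          have := (hnbb a haF).ne
          field_simp; ring
        · rw [hnba b hb a haF hab, hnba c hc a haF hac,
            hmo a (Finset.mem_insert_of_mem (Finset.mem_erase.2 ⟨hac, Finset.mem_erase.2 ⟨hab, haF⟩⟩))]; ring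
  · -- delta
    obtain ⟨f, hfv, hfb, hfB⟩ := hav v F hv hF hsmall
    obtain ⟨y, hy⟩ := exists_lor_repr (-f)
    have hy' : ∀ x, f x = - lor y x := fun x => by rw [← hy]; simp
    have hyq : lor y y ≤ 0 := by
      -- test vector
      by_contra hcon
      push Not at hcon
      set S := ∑ i : Fin d, y i.succ * y i.succ with hS
      have hSy : lor y y = -(y 0 * y 0) + S := rfl
      have hSpos : 0 < S := by nlinarith [mul_self_nonneg (y 0)]
      have hs := Real.mul_self_sqrt hSpos.le
      have hsp := Real.sqrt_pos.2 hSpos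
      let x : E d := Fin.cons (Real.sqrt S) (fun i => y i.succ)
      have hx0 : x 0 = Real.sqrt S := rfl
      have hxs : ∀ i : Fin d, x i.succ = y i.succ := fun i => rfl
      have hxB : x ∈ lightBall d := by
        refine mem_lightBall.2 ⟨?_, ?_⟩
        · unfold lor
          simp only [hx0, hxs, ← hS, hs]; linarith
        · rw [hx0]; exact hsp.le
      have h1 := hfB x hxB
      have h2 : lor y x = -(y 0 * Real.sqrt S) + S := by
        unfold lor; simp only [hx0, hxs, ← hS]
      rw [hy', h2] at h1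
      -- S ≤ y0 sqrt S, so sqrt S ≤ y0
      have h3 : Real.sqrt S ≤ y 0 := by
        by_contra h4
        push Not at h4
        nlinarith
      nlinarith
    have hyv : lor y (U v) = 0 := by have := hy' (U v); rw [hfv] at this; linarith
    have hyb : ∀ b ∈ F, lor y (U b) < 0 := fun b hb => by
      have := hy' (U b); have := hfb b hb; linarith
    have hxpos : ∀ b ∈ F, 0 < lor y (U b) / lor (nb b) (U b) := fun b hb =>
      div_pos_of_neg_of_neg (hyb b hb) (hnbb b hb)
    set x : ℕ → ℝ := fun b => lor y (U b) / lor (nb b) (U b) with hx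
    have hysum : y = ∑ b ∈ F, x b • nb b := by
      rw [← sub_eq_zero]
      apply hLI.eq_zero hTc
      intro a ha
      rw [lor_sub_left, lor_sum_left]
      rcases Finset.mem_insert.1 ha with rfl | haF
      · rw [hyv, Finset.sum_eq_zero (fun b hb => by rw [lor_smul_left, hnbv b hb, mul_zero])]; ring
      · rw [Finset.sum_eq_single_of_mem a haF (fun b hb hba => by
          rw [lor_smul_left, hnba b hb a haF (Ne.symm hba), mul_zero])]
        rw [lor_smul_left, hx]
        have := (hnbb a haF).ne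
        simp only
        field_simp; ring
    by_contra hcon
    push Not at hcon
    have hnn : ∀ b ∈ F, ∀ c ∈ F, b ≠ c → 0 ≤ lor (nb b) (nb c) := by
      intro b hb c hc hbc
      have := hcon b hb c hc hbc
      exact Real.arccos_le_pi_div_two.1 this
    have hqpos : 0 < lor y y := by
      rw [hysum, lor_sum_left]
      have hFne : F.Nonempty := Finset.card_pos.1 (by omega)
      apply Finset.sum_pos _ hFne
      intro b hb
      rw [lor_smul_left, lor_sum_right]
      apply mul_pos (hxpos b hb)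
      rw [← Finset.add_sum_erase F _ hb]
      have h1 : 0 ≤ ∑ c ∈ F.erase b, lor (nb b) (x c • nb c) := by
        apply Finset.sum_nonneg
        intro c hc
        rw [lor_smul_right]
        exact mul_nonneg (hxpos c (Finset.mem_of_mem_erase hc)).le
          (hnn b hb c (Finset.mem_of_mem_erase hc) (Finset.ne_of_mem_erase hc).symm)
      have h2 : 0 < lor (nb b) (x b • nb b) := by
        rw [lor_smul_right, hnbu b hb, mul_one]; exact hxpos b hb
      linarith
    linarith

theorem W_lower (hcut : CutHyp U P j) (hav : AvoidHyp U P) (hjd : j + 3 ≤ d)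
    (hPA : ∀ s, P s → s ⊆ A) {m : Finset ℕ → E d} (hm : RidgeNormals U A P m) :
    ∀ (D : ℕ) (F : Finset ℕ) (w : ℕ) (n : E d), F.card = d → IsNormal U n F w →
      STree P U (D+1) F w →
      (Real.pi / 2) * ((d:ℝ) / (d - 1)) ^ D ≤ ∑ b ∈ F, ang n (m (F.erase b)) := by
  intro D
  induction D with
  | zero =>
    intro F w n hF hn hT
    obtain ⟨v, nb, hv, hnb, hsub, ha, hb, hc, ⟨b, hbF, c, hcF, hbc, hd⟩⟩ :=
      node hcut hav hjd hPA hm hF hn hT
    have h1 : ∑ e ∈ F, ang n (m (F.erase e)) = ∑ e ∈ F, (ang n (nb e) + ang (nb e) (m (F.erase e))) :=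
      Finset.sum_congr rfl (fun e he => ha e he)
    have h2 := hc b hbF c hcF hbc
    have h3 : ang n (nb b) + ang n (nb c) ≤ ∑ e ∈ F, (ang n (nb e) + ang (nb e) (m (F.erase e))) := by
      rw [← Finset.add_sum_erase F _ hbF, ← Finset.add_sum_erase (F.erase b) _ (Finset.mem_erase.2 ⟨hbc.symm, hcF⟩)]
      have h4 : 0 ≤ ∑ e ∈ (F.erase b).erase c, (ang n (nb e) + ang (nb e) (m (F.erase e))) :=
        Finset.sum_nonneg (fun e _ => add_nonneg (ang_nonneg _ _) (ang_nonneg _ _))
      have h5 := ang_nonneg (nb b) (m (F.erase b))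
      have h6 := ang_nonneg (nb c) (m (F.erase c))
      linarith
    rw [pow_zero, mul_one, h1]
    linarith
  | succ D ih =>
    intro F w n hF hn hT
    obtain ⟨v, nb, hv, hnb, hsub, ha, hb, hc, -⟩ :=
      node hcut hav hjd hPA hm hF hn hT
    have hd1 : (3:ℝ) ≤ d := by exact_mod_cast (by omega : 3 ≤ d)
    -- lower bounds for the children
    have hchild : ∀ b ∈ F, (Real.pi / 2) * ((d:ℝ) / (d - 1)) ^ D ≤
        ang (nb b) (m (F.erase b)) + ∑ c ∈ F.erase b, ang (nb b) (m (insert v ((F.erase b).erase c))) := by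
      intro b hbF
      have hvb : v ∉ F.erase b := fun h => hv (Finset.mem_of_mem_erase h)
      have h1 := ih (insert v (F.erase b)) b (nb b)
        (by rw [Finset.card_insert_of_notMem hvb, Finset.card_erase_of_mem hbF, hF]; omega)
        (hnb b hbF) (hsub b hbF)
      rw [Finset.sum_insert hvb, Finset.erase_insert hvb] at h1
      refine le_trans h1 (le_of_eq ?_)
      congr 1
      refine Finset.sum_congr rfl (fun c hc => ?_)
      rw [Finset.erase_insert_of_ne (by rintro rfl; exact hvb hc)]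
    set S1 := ∑ b ∈ F, ang (nb b) (m (F.erase b)) with hS1
    set Uu := ∑ b ∈ F, ang n (nb b) with hUu
    set S2 := ∑ b ∈ F, ∑ c ∈ F.erase b, ang (nb b) (m (insert v ((F.erase b).erase c))) with hS2
    have hW : ∑ e ∈ F, ang n (m (F.erase e)) = Uu + S1 := by
      rw [hUu, hS1, ← Finset.sum_add_distrib]
      exact Finset.sum_congr rfl (fun e he => ha e he)
    have hsum : (d:ℝ) * ((Real.pi / 2) * ((d:ℝ) / (d - 1)) ^ D) ≤ S1 + S2 := by
      rw [hS1, hS2, ← Finset.sum_add_distrib]
      have := Finset.sum_le_sum hchild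
      rw [Finset.sum_const, hF, nsmul_eq_mul] at this
      exact this
    have hS2' : 2 * S2 ≤ 2 * ((d:ℝ) - 1) * Uu := by
      have hswap : S2 = ∑ b ∈ F, ∑ c ∈ F.erase b, ang (nb c) (m (insert v ((F.erase b).erase c))) := by
        rw [hS2]
        have e1 : ∀ g : ℕ → ℕ → ℝ, ∑ b ∈ F, ∑ c ∈ F.erase b, g b c
            = ∑ b ∈ F, ∑ c ∈ F, if b ≠ c then g b c else 0 := by
          intro g
          refine Finset.sum_congr rfl (fun b hb => ?_)
          rw [← Finset.sum_filter]
          refine Finset.sum_congr ?_ (fun _ _ => rfl)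
          ext x; simp only [Finset.mem_erase, Finset.mem_filter]
          tauto
        rw [e1, e1, Finset.sum_comm]
        refine Finset.sum_congr rfl (fun b hb => Finset.sum_congr rfl (fun c hc => ?_))
        by_cases hbc : b = c
        · subst hbc; simp
        · rw [if_pos hbc, if_pos (Ne.symm hbc), Finset.erase_right_comm]
      have h1 : 2 * S2 = ∑ b ∈ F, ∑ c ∈ F.erase b, ang (nb b) (nb c) := by
        have : 2 * S2 = S2 + ∑ b ∈ F, ∑ c ∈ F.erase b, ang (nb c) (m (insert v ((F.erase b).erase c))) := by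
          rw [← hswap]; ring
        rw [this, hS2, ← Finset.sum_add_distrib]
        refine Finset.sum_congr rfl (fun b hbF => ?_)
        rw [← Finset.sum_add_distrib]
        refine Finset.sum_congr rfl (fun c hcF => ?_)
        exact (hb b hbF c (Finset.mem_of_mem_erase hcF) (Finset.ne_of_mem_erase hcF).symm).symm
      have h2 : ∑ b ∈ F, ∑ c ∈ F.erase b, ang (nb b) (nb c) ≤
          ∑ b ∈ F, ∑ c ∈ F.erase b, (ang n (nb b) + ang n (nb c)) :=
        Finset.sum_le_sum (fun b hbF => Finset.sum_le_sum (fun c hcF =>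
          hc b hbF c (Finset.mem_of_mem_erase hcF) (Finset.ne_of_mem_erase hcF).symm))
      have h3 : ∑ b ∈ F, ∑ c ∈ F.erase b, (ang n (nb b) + ang n (nb c)) = 2 * ((d:ℝ) - 1) * Uu := by
        have : ∀ b ∈ F, ∑ c ∈ F.erase b, (ang n (nb b) + ang n (nb c)) = ((d:ℝ) - 1) * ang n (nb b) + (Uu - ang n (nb b)) := by
          intro b hbF
          rw [Finset.sum_add_distrib, Finset.sum_const, Finset.card_erase_of_mem hbF, hF, nsmul_eq_mul,
            hUu, ← Finset.add_sum_erase F (fun b => ang n (nb b)) hbF, Nat.cast_sub (by omega)]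
          push_cast; ring
        rw [Finset.sum_congr rfl this, Finset.sum_add_distrib, Finset.sum_sub_distrib, Finset.sum_const, hF,
          nsmul_eq_mul, ← Finset.mul_sum, ← hUu]
        ring
      linarith
    have hS1nn : 0 ≤ S1 := Finset.sum_nonneg (fun _ _ => ang_nonneg _ _)
    have hfinal : (d:ℝ) * ((Real.pi / 2) * ((d:ℝ) / (d - 1)) ^ D) ≤ ((d:ℝ) - 1) * (Uu + S1) := by
      nlinarith
    rw [hW, pow_succ]
    have hdpos : (0:ℝ) < d - 1 := by linarith
    have : Real.pi / 2 * (((d:ℝ) / (d - 1)) ^ D * ((d:ℝ) / (d - 1))) =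
        ((d:ℝ) * ((Real.pi / 2) * ((d:ℝ) / (d - 1)) ^ D)) / (d - 1) := by
      field_simp
    rw [this, div_le_iff₀ hdpos]
    linarith

end main

end Pool.Agent.H32.Scrib
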