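import Mathlib
import Pool.Agent.H32.ScribTree

/-!
Combinatorial complexes of stackings, and their geometric realizations: stacking and unstacking.
-/

open scoped BigOperators

namespace Pool.Agent.H32.Scrib

variable {d : ℕ}

/-- `s` is the vertex set of a face of the cone generated by the vectors `U a`, `a ∈ A`. -/
def FS {ι : Type*} (U : ι → E d) (A s : Finset ι) : Prop :=
  s ⊆ A ∧ ∃ f : E d →ₗ[ℝ] ℝ, (∀ a ∈ s, f (U a) = 0) ∧ ∀ a ∈ A, a ∉ s → 0 < f (U a)

/-- The family `U a`, `a ∈ A`, realizes the complex `Δ` (of vertex sets of proper faces). -/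
structure Realizes (U : ℕ → E d) (A : Finset ℕ) (Δ : Finset ℕ → Prop) : Prop where
  faces : ∀ s, FS U A s ↔ (Δ s ∨ s = A)
  span : Submodule.span ℝ (U '' A) = ⊤

/-- Combinatorial properties of the complexes we use. -/
structure Cpx (d : ℕ) (A : Finset ℕ) (Δ : Finset ℕ → Prop) : Prop where
  sub : ∀ s, Δ s → s ⊆ A
  down : ∀ s t, Δ s → t ⊆ s → Δ t
  card : ∀ s, Δ s → s.card ≤ d
  sing : ∀ a ∈ A, Δ {a}
  cardA : d + 1 ≤ A.card

/-- The complex obtained by stacking the vertex `v` onto the facet `F`. -/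
def stk (Δ : Finset ℕ → Prop) (F : Finset ℕ) (v : ℕ) : Finset ℕ → Prop :=
  fun s => (v ∉ s ∧ Δ s ∧ s ≠ F) ∨ (v ∈ s ∧ s.erase v ⊂ F)

lemma Cpx.stk {A : Finset ℕ} {Δ : Finset ℕ → Prop} (h : Cpx d A Δ) {F : Finset ℕ} {v : ℕ}
    (hF : Δ F) (hFc : F.card = d) (hv : v ∉ A) (hd : 2 ≤ d) : Cpx d (insert v A) (stk Δ F v) where
  sub := by
    rintro s (⟨h1, h2, h3⟩ | ⟨h1, h2⟩)
    · exact (h.sub s h2).trans (Finset.subset_insert _ _)
    · rw [← Finset.insert_erase h1]
      exact Finset.insert_subset_insert _ (h2.1.trans (h.sub F hF))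
  down := by
    rintro s t (⟨h1, h2, h3⟩ | ⟨h1, h2⟩) hts
    · refine Or.inl ⟨fun h4 => h1 (hts h4), h.down s t h2 hts, ?_⟩
      rintro rfl
      apply h3
      exact (Finset.eq_of_subset_of_card_le hts (by have := h.card s h2; omega)).symm
    · by_cases hvt : v ∈ t
      · refine Or.inr ⟨hvt, lt_of_le_of_lt (Finset.erase_subset_erase _ hts) h2⟩
      · have hts' : t ⊆ s.erase v := fun x hx => Finset.mem_erase.2 ⟨by rintro rfl; exact hvt hx, hts hx⟩
        have htF : t ⊂ F := lt_of_le_of_lt hts' h2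
        exact Or.inl ⟨hvt, h.down F t hF htF.1, htF.ne⟩
  card := by
    rintro s (⟨h1, h2, h3⟩ | ⟨h1, h2⟩)
    · exact h.card s h2
    · have h3 := Finset.card_lt_card h2
      rw [Finset.card_erase_of_mem h1] at h3
      omega
  sing := by
    intro a ha
    rcases Finset.mem_insert.1 ha with rfl | ha
    · right
      refine ⟨Finset.mem_singleton_self _, ?_⟩
      rw [Finset.erase_singleton]
      exact Finset.empty_ssubset.2 (Finset.card_pos.1 (by omega))
    · left
      refine ⟨?_, h.sing a ha, ?_⟩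
      · rw [Finset.mem_singleton]; rintro rfl; exact hv ha
      · rintro rfl; simp at hFc; omega
  cardA := by
    rw [Finset.card_insert_of_notMem hv]; have := h.cardA; omega

lemma LI.exists_coeff {U : ℕ → E d} {T : Finset ℕ} (h : LI U T) (hc : T.card = d + 1) (x : E d) :
    ∃ g : ℕ → ℝ, x = ∑ a ∈ T, g a • U a := by
  classical
  have hx : x ∈ Submodule.span ℝ (Set.range (fun a : T => U a)) := by rw [h.span_top hc]; trivial
  rw [Submodule.mem_span_range_iff_exists_fun] at hx
  obtain ⟨c, hc⟩ := hx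
  refine ⟨fun a => if ha : a ∈ T then c ⟨a, ha⟩ else 0, ?_⟩
  rw [← hc, ← Finset.sum_coe_sort T]
  refine Finset.sum_congr rfl (fun a _ => ?_)
  simp

lemma functional_eq_zero {f : E d →ₗ[ℝ] ℝ} {S : Set (E d)} (hS : Submodule.span ℝ S = ⊤)
    (h : ∀ x ∈ S, f x = 0) : f = 0 := by
  apply LinearMap.ext_on hS
  intro x hx; simpa using h x hx

/-- Unstacking: from a realization of the stacked complex one gets a realization of the
original complex, with the new vertex beyond the facet `F`. -/
lemma unstack {A : Finset ℕ} {Δ : Finset ℕ → Prop} (h : Cpx d A Δ) {F : Finset ℕ} {v : ℕ}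
    (hF : Δ F) (hFc : F.card = d) (hv : v ∉ A) (hd : 2 ≤ d) {U : ℕ → E d}
    (hU : Realizes U (insert v A) (stk Δ F v)) :
    Realizes U A Δ ∧ LI U (insert v F) ∧
      ∀ w ∈ A, w ∉ F → ∃ α : ℝ, α < 0 ∧ ∃ β : ℕ → ℝ, U w = α • U v + ∑ b ∈ F, β b • U b := by
  classical
  have hFA : F ⊆ A := h.sub F hF
  have hvF : v ∉ F := fun h' => hv (hFA h')
  have hFne : F.Nonempty := Finset.card_pos.1 (by omega)
  -- facet functionals
  have hfb : ∀ b ∈ F, ∃ f : E d →ₗ[ℝ] ℝ, f (U v) = 0 ∧ (∀ a ∈ F, a ≠ b → f (U a) = 0) ∧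
      0 < f (U b) ∧ ∀ a ∈ A, a ∉ F → 0 < f (U a) := by
    intro b hb
    have hs : stk Δ F v (insert v (F.erase b)) := by
      right
      refine ⟨Finset.mem_insert_self _ _, ?_⟩
      rw [Finset.erase_insert (fun h' => hvF (Finset.mem_of_mem_erase h'))]
      exact Finset.erase_ssubset hb
    obtain ⟨-, f, hf1, hf2⟩ := (hU.faces _).2 (Or.inl hs)
    have hbv : b ≠ v := by rintro rfl; exact hvF hb
    refine ⟨f, hf1 v (Finset.mem_insert_self _ _), ?_, ?_, ?_⟩
    · intro a ha hab
      exact hf1 a (Finset.mem_insert_of_mem (Finset.mem_erase.2 ⟨hab, ha⟩))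
    · apply hf2 b (Finset.mem_insert_of_mem (hFA hb))
      simp [hbv]
    · intro a ha haF
      apply hf2 a (Finset.mem_insert_of_mem ha)
      have : a ≠ v := by rintro rfl; exact hv ha
      simp [this, haF]
  choose! f hfv hfF hfb hfA using hfb
  -- nonzero of U v
  have h0 : stk Δ F v ∅ := Or.inl ⟨by simp, h.down F ∅ hF (Finset.empty_subset _), by
    rintro h'; rw [← h'] at hFc; simp at hFc; omega⟩
  obtain ⟨-, f0, -, hf0⟩ := (hU.faces _).2 (Or.inl h0)
  have hUv : U v ≠ 0 := by
    intro h'
    have := hf0 v (Finset.mem_insert_self _ _) (by simp)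
    rw [h'] at this; simp at this
  have hTc : (insert v F).card = d + 1 := by rw [Finset.card_insert_of_notMem hvF, hFc]
  have hLI : LI U (insert v F) := by
    intro g hg
    rw [Finset.sum_insert hvF] at hg
    have hgb : ∀ b ∈ F, g b = 0 := by
      intro b hb
      have := congrArg (f b) hg
      rw [map_add, map_smul, hfv b hb, map_sum, Finset.sum_eq_single_of_mem b hb] at this
      · simp only [map_smul, smul_eq_mul, mul_zero, zero_add, map_zero] at this
        rcases mul_eq_zero.1 this with h' | h'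
        · exact h'
        · have := hfb b hb; linarith
      · intro a ha hab
        rw [map_smul, hfF b hb a ha hab, smul_zero]
    rw [Finset.sum_eq_zero (fun b hb => by rw [hgb b hb, zero_smul]), add_zero] at hg
    intro a ha
    rcases Finset.mem_insert.1 ha with rfl | ha
    · rcases smul_eq_zero.1 hg with h' | h'
      · exact h'
      · exact absurd h' hUv
    · exact hgb a ha
  -- expansions
  have hexp : ∀ w ∈ A, w ∉ F → ∃ α : ℝ, α < 0 ∧ ∃ β : ℕ → ℝ, (∀ b ∈ F, 0 < β b) ∧
      U w = α • U v + ∑ b ∈ F, β b • U b := by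
    intro w hw hwF
    obtain ⟨g, hg⟩ := hLI.exists_coeff hTc (U w)
    rw [Finset.sum_insert hvF] at hg
    have hgpos : ∀ b ∈ F, 0 < g b := by
      intro b hb
      have h1 := hfA b hb w hw hwF
      rw [hg, map_add, map_smul, hfv b hb, map_sum, Finset.sum_eq_single_of_mem b hb] at h1
      · simp only [map_smul, smul_eq_mul, mul_zero, zero_add] at h1
        have h2 := hfb b hb
        exact (mul_pos_iff_of_pos_right h2).1 h1
      · intro a ha hab
        rw [map_smul, hfF b hb a ha hab, smul_zero]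
    refine ⟨g v, ?_, g, hgpos, hg⟩
    by_contra hcon
    push Not at hcon
    have hws : stk Δ F v {w} := by
      left
      refine ⟨?_, h.sing w hw, ?_⟩
      · rw [Finset.mem_singleton]; rintro rfl; exact hv hw
      · rintro rfl; simp at hwF
    obtain ⟨-, k, hk1, hk2⟩ := (hU.faces _).2 (Or.inl hws)
    have h1 := hk1 w (Finset.mem_singleton_self _)
    rw [hg, map_add, map_smul, map_sum] at h1
    have h2 : 0 < k (U v) := hk2 v (Finset.mem_insert_self _ _) (by
      rw [Finset.mem_singleton]; rintro rfl; exact hv hw)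
    have h3 : 0 < ∑ b ∈ F, k (g b • U b) := by
      apply Finset.sum_pos _ hFne
      intro b hb
      rw [map_smul, smul_eq_mul]
      apply mul_pos (hgpos b hb)
      apply hk2 b (Finset.mem_insert_of_mem (hFA hb))
      rw [Finset.mem_singleton]; rintro rfl; exact hwF hb
    have h4 : 0 ≤ g v • k (U v) := mul_nonneg hcon h2.le
    linarith
  refine ⟨⟨?_, ?_⟩, hLI, fun w hw hwF => ?_⟩
  · intro s
    constructor
    · rintro ⟨hsA, g, hg1, hg2⟩
      by_cases hsA' : s = A
      · exact Or.inr hsA'
      by_cases hsF : s ⊆ F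
      · exact Or.inl (h.down F s hF hsF)
      obtain ⟨u, hus, huF⟩ := Finset.not_subset.1 hsF
      obtain ⟨α, hα, β, hβ, hu⟩ := hexp u (hsA hus) huF
      have hgF : ∀ b ∈ F, 0 ≤ g (U b) := by
        intro b hb
        by_cases hbs : b ∈ s
        · exact (hg1 b hbs).ge
        · exact (hg2 b (hFA hb) hbs).le
      have h1 := hg1 u hus
      rw [hu, map_add, map_smul, map_sum] at h1
      have h2 : 0 ≤ ∑ b ∈ F, g (β b • U b) := Finset.sum_nonneg (fun b hb => by
        rw [map_smul]; exact mul_nonneg (hβ b hb).le (hgF b hb))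
      rw [smul_eq_mul] at h1
      have h3 : 0 ≤ g (U v) := by
        by_contra h'; push Not at h'
        nlinarith [mul_pos_of_neg_of_neg hα h']
      rcases h3.eq_or_lt with h4 | h4
      · -- g vanishes on the basis
        exfalso
        have h5 : ∑ b ∈ F, g (β b • U b) = 0 := by rw [← h4] at h1; linarith
        have h6 := (Finset.sum_eq_zero_iff_of_nonneg (fun b hb => by
          rw [map_smul]; exact mul_nonneg (hβ b hb).le (hgF b hb))).1 h5
        have h7 : g = 0 := by
          apply functional_eq_zero (hLI.span_top hTc)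
          rintro x ⟨a, rfl⟩
          rcases Finset.mem_insert.1 a.2 with ha | ha
          · simp only [ha]; exact h4.symm
          · have := h6 a ha
            rw [map_smul, smul_eq_mul] at this
            rcases mul_eq_zero.1 this with h' | h'
            · have := hβ a ha; linarith
            · exact h'
        apply hsA'
        apply Finset.Subset.antisymm hsA
        intro a ha
        by_contra has
        have := hg2 a ha has
        rw [h7] at this; simp at this
      · have h5 : FS U (insert v A) s := by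
          refine ⟨hsA.trans (Finset.subset_insert _ _), g, hg1, ?_⟩
          intro a ha has
          rcases Finset.mem_insert.1 ha with rfl | ha
          · exact h4
          · exact hg2 a ha has
        rcases (hU.faces s).1 h5 with (h6 | h6) | h6
        · exact Or.inl h6.2.1
        · exact absurd (hsA h6.1) hv
        · exfalso; apply hv; apply hsA; rw [h6]; exact Finset.mem_insert_self _ _
    · rintro (hs | rfl)
      · by_cases hsF : s = F
        · subst hsF
          obtain ⟨y, hy1, hy2⟩ := hLI.exists_dual hTc (Finset.mem_insert_self v s)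
          refine ⟨hFA, lorL y, ?_, ?_⟩
          · intro a ha
            exact hy2 a (Finset.mem_insert_of_mem ha) (by rintro rfl; exact hvF ha)
          · intro a ha has
            obtain ⟨α, hα, β, hβ, hu⟩ := hexp a ha has
            rw [lorL_apply, hu, lor_add_right, lor_smul_right, lor_sum_right, hy1]
            rw [Finset.sum_eq_zero (fun b hb => by
              rw [lor_smul_right, hy2 b (Finset.mem_insert_of_mem hb) (by rintro rfl; exact hvF hb), mul_zero])]
            linarith
        · have hvs : v ∉ s := fun h' => hv (h.sub s hs h')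
          obtain ⟨-, g, hg1, hg2⟩ := (hU.faces s).2 (Or.inl (Or.inl ⟨hvs, hs, hsF⟩))
          exact ⟨h.sub s hs, g, hg1, fun a ha has => hg2 a (Finset.mem_insert_of_mem ha) has⟩
      · exact ⟨subset_rfl, 0, fun _ _ => rfl, fun a ha has => absurd ha has⟩
  · -- span
    obtain ⟨w, hw, hwF⟩ : ∃ w ∈ A, w ∉ F := by
      by_contra hcon
      push Not at hcon
      have := Finset.card_le_card (show A ⊆ F from hcon)
      have := h.cardA; omega
    obtain ⟨α, hα, β, hβ, hu⟩ := hexp w hw hwF
    rw [eq_top_iff, ← hU.span, Submodule.span_le]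
    rintro x ⟨a, ha, rfl⟩
    rw [Finset.mem_coe, Finset.mem_insert] at ha
    rcases ha with rfl | ha
    · have hUv' : U a = α⁻¹ • (U w - ∑ b ∈ F, β b • U b) := by
        rw [hu, add_sub_cancel_right, smul_smul, inv_mul_cancel₀ hα.ne, one_smul]
      rw [hUv']
      apply Submodule.smul_mem
      apply Submodule.sub_mem
      · exact Submodule.subset_span ⟨w, hw, rfl⟩
      · exact Submodule.sum_mem _ (fun b hb => Submodule.smul_mem _ _ (Submodule.subset_span ⟨b, hFA hb, rfl⟩))
    · exact Submodule.subset_span ⟨a, ha, rfl⟩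
  · obtain ⟨α, hα, β, hβ, hu⟩ := hexp w hw hwF
    exact ⟨α, hα, β, hu⟩


/-! ### Cones -/

lemma mem_coneOn_of_mem {ι : Type*} [DecidableEq ι] {V : ι → E d} {A : Finset ι} {a : ι} (ha : a ∈ A) :
    V a ∈ coneOn V A := by
  refine ⟨fun b => if b = a then 1 else 0, fun b _ => by dsimp only; split_ifs <;> norm_num, ?_⟩
  simp [ha]

lemma face_of_functional {ι : Type*} [DecidableEq ι] {V : ι → E d} {A s : Finset ι} (hs : s ⊆ A)
    {f : E d →ₗ[ℝ] ℝ} (h0 : ∀ a ∈ s, f (V a) = 0) (h1 : ∀ a ∈ A, a ∉ s → 0 < f (V a)) :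
    (∀ x ∈ coneOn V A, 0 ≤ f x) ∧ coneOn V s = {x | x ∈ coneOn V A ∧ f x = 0} := by
  have hnn : ∀ a ∈ A, 0 ≤ f (V a) := fun a ha => by
    by_cases has : a ∈ s
    · exact (h0 a has).ge
    · exact (h1 a ha has).le
  refine ⟨?_, ?_⟩
  · rintro x ⟨c, hc, rfl⟩
    rw [map_sum]
    exact Finset.sum_nonneg (fun a ha => by rw [map_smul]; exact mul_nonneg (hc a ha) (hnn a ha))
  · ext x
    constructor
    · rintro ⟨c, hc, rfl⟩
      refine ⟨⟨fun a => if a ∈ s then c a else 0, fun a _ => ?_, ?_⟩, ?_⟩
      · by_cases has : a ∈ s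
        · simp only [has, if_true]; exact hc a has
        · simp [has]
      · simp only [ite_smul, zero_smul]
        rw [← Finset.sum_filter]
        apply Finset.sum_congr _ (fun _ _ => rfl)
        ext a; simp only [Finset.mem_filter]
        exact ⟨fun h => ⟨hs h, h⟩, fun h => h.2⟩
      · rw [map_sum]
        exact Finset.sum_eq_zero (fun a ha => by rw [map_smul, h0 a ha, smul_zero])
    · rintro ⟨⟨c, hc, rfl⟩, hx⟩
      rw [map_sum] at hx
      have h2 := (Finset.sum_eq_zero_iff_of_nonneg (fun a ha => by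
        rw [map_smul]; exact mul_nonneg (hc a ha) (hnn a ha))).1 hx
      refine ⟨c, fun a ha => hc a (hs ha), ?_⟩
      symm
      apply Finset.sum_subset hs
      intro a ha has
      have h3 := h2 a ha
      rw [map_smul, smul_eq_mul] at h3
      rcases mul_eq_zero.1 h3 with h4 | h4
      · rw [h4, zero_smul]
      · exact absurd h4 (h1 a ha has).ne'

lemma isFace_of_FS {ι : Type*} [DecidableEq ι] {V : ι → E d} {A s : Finset ι} (h : FS V A s) :
    IsFace (coneOn V A) (coneOn V s) := by
  obtain ⟨hs, f, h0, h1⟩ := h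
  obtain ⟨h2, h3⟩ := face_of_functional hs h0 h1
  exact ⟨f, h2, h3⟩

lemma exists_FS_of_face {ι : Type*} [DecidableEq ι] {V : ι → E d} {A : Finset ι} {f : E d →ₗ[ℝ] ℝ}
    (hf : ∀ x ∈ coneOn V A, 0 ≤ f x) :
    ∃ s ⊆ A, (∀ a ∈ s, f (V a) = 0) ∧ (∀ a ∈ A, a ∉ s → 0 < f (V a)) ∧
      {x | x ∈ coneOn V A ∧ f x = 0} = coneOn V s := by
  classical
  refine ⟨A.filter (fun a => f (V a) = 0), Finset.filter_subset _ _, ?_, ?_, ?_⟩
  · intro a ha; exact (Finset.mem_filter.1 ha).2
  · intro a ha has
    have h1 := hf _ (mem_coneOn_of_mem (V := V) ha)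
    have h2 : f (V a) ≠ 0 := fun h => has (Finset.mem_filter.2 ⟨ha, h⟩)
    exact lt_of_le_of_ne h1 (Ne.symm h2)
  · symm
    apply (face_of_functional (Finset.filter_subset _ _) _ _).2
    · intro a ha; exact (Finset.mem_filter.1 ha).2
    · intro a ha has
      have h1 := hf _ (mem_coneOn_of_mem (V := V) ha)
      have h2 : f (V a) ≠ 0 := fun h => has (Finset.mem_filter.2 ⟨ha, h⟩)
      exact lt_of_le_of_ne h1 (Ne.symm h2)

lemma span_coneOn {ι : Type*} [DecidableEq ι] (V : ι → E d) (A : Finset ι) :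
    Submodule.span ℝ (coneOn V A) = Submodule.span ℝ (V '' A) := by
  apply le_antisymm
  · rw [Submodule.span_le]
    rintro x ⟨c, hc, rfl⟩
    exact Submodule.sum_mem _ (fun a ha => Submodule.smul_mem _ _ (Submodule.subset_span ⟨a, ha, rfl⟩))
  · rw [Submodule.span_le]
    rintro x ⟨a, ha, rfl⟩
    exact Submodule.subset_span (mem_coneOn_of_mem ha)

lemma finrank_span_coneOn {ι : Type*} [DecidableEq ι] {V : ι → E d} {A : Finset ι} (h : LI V A) :
    Module.finrank ℝ (Submodule.span ℝ (coneOn V A)) = A.card := by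
  rw [span_coneOn]
  have h1 := finrank_span_eq_card h.linearIndependent
  have h2 : Set.range (fun a : A => V a) = V '' A := by
    ext x; simp
  rw [h2] at h1
  rw [h1]; simp

lemma finrank_span_coneOn_le {ι : Type*} [DecidableEq ι] (V : ι → E d) (A : Finset ι) :
    Module.finrank ℝ (Submodule.span ℝ (coneOn V A)) ≤ A.card := by
  rw [span_coneOn]
  have : V '' A = ((A.image V : Finset (E d)) : Set (E d)) := by simp
  rw [this]
  exact (finrank_span_finset_le_card _).trans Finset.card_image_le

end Pool.Agent.H32.Scrib
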