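import Mathlib
import Pool.Agent.H32.ScribStack

/-!
Geometric stacking: a realized complex can be stacked, and complete trees of stackings exist.
-/

open scoped BigOperators

namespace Pool.Agent.H32.Scrib

variable {d : ℕ}

lemma FS.congr {ι : Type*} {V V' : ι → E d} {A s : Finset ι} (h : ∀ a ∈ A, V a = V' a) (hs : FS V A s) :
    FS V' A s := by
  obtain ⟨h1, f, h2, h3⟩ := hs
  exact ⟨h1, f, fun a ha => by rw [← h a (h1 ha)]; exact h2 a ha, fun a ha has => by rw [← h a ha]; exact h3 a ha has⟩

lemma LI_facet {V : ℕ → E d} {A : Finset ℕ} {Δ : Finset ℕ → Prop} (hC : Cpx d A Δ) (hV : Realizes V A Δ)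
    {F : Finset ℕ} (hF : Δ F) : LI V F := by
  classical
  intro g hg b hb
  obtain ⟨-, f, hf1, hf2⟩ := (hV.faces _).2 (Or.inl (hC.down F _ hF (Finset.erase_subset b F)))
  have h1 := congrArg f hg
  rw [map_sum, Finset.sum_eq_single_of_mem b hb] at h1
  · have h2 := hf2 b (hC.sub F hF hb) (Finset.notMem_erase _ _)
    rw [map_smul, smul_eq_mul, map_zero] at h1
    rcases mul_eq_zero.1 h1 with h | h
    · exact h
    · linarith
  · intro a ha hab
    rw [map_smul, hf1 a (Finset.mem_erase.2 ⟨hab, ha⟩), smul_zero]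

lemma LI_facet_insert {V : ℕ → E d} {A : Finset ℕ} {Δ : Finset ℕ → Prop} (hC : Cpx d A Δ)
    (hV : Realizes V A Δ) {F : Finset ℕ} (hF : Δ F) {u : ℕ} (hu : u ∈ A) (huF : u ∉ F) :
    LI V (insert u F) := by
  classical
  obtain ⟨-, f, hf1, hf2⟩ := (hV.faces F).2 (Or.inl hF)
  intro g hg
  have h1 := congrArg f hg
  rw [Finset.sum_insert huF, map_add, map_sum, Finset.sum_eq_zero (fun b hb => by
    rw [map_smul, hf1 b hb, smul_zero]), add_zero, map_smul, smul_eq_mul, map_zero] at h1
  have h2 := hf2 u hu huF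
  have hgu : g u = 0 := by
    rcases mul_eq_zero.1 h1 with h | h
    · exact h
    · linarith
  rw [Finset.sum_insert huF, hgu, zero_smul, zero_add] at hg
  intro a ha
  rcases Finset.mem_insert.1 ha with rfl | ha
  · exact hgu
  · exact LI_facet hC hV hF g hg a ha

/-- A uniform bound: a functional nonnegative on the polytope and vanishing at a vertex off the
facet `F` is controlled by its values on `F`. -/
lemma bound {V : ℕ → E d} {A : Finset ℕ} {Δ : Finset ℕ → Prop} (hC : Cpx d A Δ)
    (hV : Realizes V A Δ) {F : Finset ℕ} (hF : Δ F) (hFc : F.card = d) :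
    ∃ M : ℝ, 0 < M ∧ ∀ h : E d →ₗ[ℝ] ℝ, (∀ a ∈ A, 0 ≤ h (V a)) → ∀ u ∈ A, u ∉ F → h (V u) = 0 →
      ∑ a ∈ A, h (V a) ≤ M * ∑ b ∈ F, h (V b) := by
  classical
  have hFA := hC.sub F hF
  have hex : ∀ u ∈ A, u ∉ F → ∀ x : E d, ∃ g : ℕ → ℝ, x = ∑ a ∈ insert u F, g a • V a := by
    intro u hu huF x
    exact (LI_facet_insert hC hV hF hu huF).exists_coeff (by rw [Finset.card_insert_of_notMem huF, hFc]) x
  choose! g hg using hex
  refine ⟨1 + ∑ u ∈ A, ∑ a ∈ A, ∑ b ∈ F, |g u (V a) b|, ?_, ?_⟩
  · have : 0 ≤ ∑ u ∈ A, ∑ a ∈ A, ∑ b ∈ F, |g u (V a) b| :=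
      Finset.sum_nonneg (fun _ _ => Finset.sum_nonneg (fun _ _ => Finset.sum_nonneg (fun _ _ => abs_nonneg _)))
    linarith
  · intro h hnn u hu huF hu0
    have hFnn : ∀ b ∈ F, 0 ≤ h (V b) := fun b hb => hnn b (hFA hb)
    have hS : 0 ≤ ∑ b ∈ F, h (V b) := Finset.sum_nonneg hFnn
    have h1 : ∀ a ∈ A, h (V a) ≤ (∑ b ∈ F, |g u (V a) b|) * ∑ b ∈ F, h (V b) := by
      intro a ha
      have h2 : h (V a) = ∑ b ∈ F, g u (V a) b * h (V b) := by
        have h3 := congrArg h (hg u hu huF (V a))
        rw [Finset.sum_insert huF, map_add, map_smul, hu0, smul_zero, zero_add, map_sum] at h3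
        rw [h3]
        exact Finset.sum_congr rfl (fun b _ => by rw [map_smul, smul_eq_mul])
      rw [h2, Finset.sum_mul]
      apply Finset.sum_le_sum
      intro b hb
      have h4 : h (V b) ≤ ∑ b ∈ F, h (V b) := Finset.single_le_sum hFnn hb
      calc g u (V a) b * h (V b) ≤ |g u (V a) b| * h (V b) :=
            mul_le_mul_of_nonneg_right (le_abs_self _) (hFnn b hb)
        _ ≤ |g u (V a) b| * ∑ b ∈ F, h (V b) := mul_le_mul_of_nonneg_left h4 (abs_nonneg _)
    calc ∑ a ∈ A, h (V a) ≤ ∑ a ∈ A, (∑ b ∈ F, |g u (V a) b|) * ∑ b ∈ F, h (V b) := Finset.sum_le_sum h1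
      _ = (∑ a ∈ A, ∑ b ∈ F, |g u (V a) b|) * ∑ b ∈ F, h (V b) := by rw [Finset.sum_mul]
      _ ≤ _ := by
        apply mul_le_mul_of_nonneg_right _ hS
        have : ∑ a ∈ A, ∑ b ∈ F, |g u (V a) b| ≤ ∑ u ∈ A, ∑ a ∈ A, ∑ b ∈ F, |g u (V a) b| :=
          Finset.single_le_sum (f := fun u => ∑ a ∈ A, ∑ b ∈ F, |g u (V a) b|)
            (fun _ _ => Finset.sum_nonneg (fun _ _ => Finset.sum_nonneg (fun _ _ => abs_nonneg _))) hu
        linarith

/-- A point beyond exactly the facet `F`. -/
lemma exists_beyond {V : ℕ → E d} {A : Finset ℕ} {Δ : Finset ℕ → Prop} (hC : Cpx d A Δ)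
    (hV : Realizes V A Δ) {F : Finset ℕ} (hF : Δ F) (hFc : F.card = d) :
    ∃ x : E d,
      (∀ t, Δ t → t ≠ F → ∃ h : E d →ₗ[ℝ] ℝ, (∀ a ∈ t, h (V a) = 0) ∧
        (∀ a ∈ A, a ∉ t → 0 < h (V a)) ∧ 0 < h x) ∧
      (∀ h : E d →ₗ[ℝ] ℝ, (∀ a ∈ A, 0 ≤ h (V a)) → (∃ u ∈ A, u ∉ F ∧ h (V u) = 0) →
        (∃ a ∈ A, 0 < h (V a)) → 0 < h x) ∧
      (∀ h : E d →ₗ[ℝ] ℝ, (∀ a ∈ A, 0 ≤ h (V a)) → (∀ b ∈ F, h (V b) = 0) →
        (∃ a ∈ A, 0 < h (V a)) → h x < 0) := by
  classical
  obtain ⟨M, hM, hbd⟩ := bound hC hV hF hFc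
  have hFA := hC.sub F hF
  set T := (A.powerset.filter (fun t => Δ t ∧ t ≠ F)) with hT
  have hex : ∀ t ∈ T, ∃ h : E d →ₗ[ℝ] ℝ, (∀ a ∈ t, h (V a) = 0) ∧ (∀ a ∈ A, a ∉ t → 0 < h (V a)) := by
    intro t ht
    obtain ⟨-, h, h1, h2⟩ := (hV.faces t).2 (Or.inl (Finset.mem_filter.1 ht).2.1)
    exact ⟨h, h1, h2⟩
  choose! h hh1 hh2 using hex
  have hev : ∀ᶠ ε in nhdsWithin (0:ℝ) (Set.Ioi 0), ∀ t ∈ T,
      0 < ∑ b ∈ F, h t (V b) - ε * ∑ a ∈ A, h t (V a) := by
    rw [Filter.eventually_all_finset]
    intro t ht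
    have hpos : 0 < ∑ b ∈ F, h t (V b) := by
      have htm := Finset.mem_filter.1 ht
      obtain ⟨b, hb, hbt⟩ : ∃ b ∈ F, b ∉ t := by
        by_contra hcon
        push Not at hcon
        have : F = t := Finset.eq_of_subset_of_card_le hcon (by have := hC.card t htm.2.1; omega)
        exact htm.2.2 this.symm
      apply Finset.sum_pos' _ ⟨b, hb, hh2 t ht b (hFA hb) hbt⟩
      intro a ha
      by_cases hat : a ∈ t
      · exact (hh1 t ht a hat).ge
      · exact (hh2 t ht a (hFA ha) hat).le
    have hcont : Filter.Tendsto (fun ε : ℝ => ∑ b ∈ F, h t (V b) - ε * ∑ a ∈ A, h t (V a))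
        (nhdsWithin 0 (Set.Ioi 0)) (nhds (∑ b ∈ F, h t (V b) - 0 * ∑ a ∈ A, h t (V a))) := by
      apply Filter.Tendsto.mono_left _ nhdsWithin_le_nhds
      exact (continuous_const.sub (continuous_id.mul continuous_const)).tendsto 0
    rw [zero_mul, sub_zero] at hcont
    exact hcont.eventually (lt_mem_nhds hpos)
  have hev2 : ∀ᶠ ε in nhdsWithin (0:ℝ) (Set.Ioi 0), ε * M < 1 := by
    have hcont : Filter.Tendsto (fun ε : ℝ => ε * M) (nhdsWithin 0 (Set.Ioi 0)) (nhds (0 * M)) := by
      apply Filter.Tendsto.mono_left _ nhdsWithin_le_nhds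
      exact (continuous_id.mul continuous_const).tendsto 0
    rw [zero_mul] at hcont
    exact hcont.eventually (gt_mem_nhds one_pos)
  obtain ⟨ε, hε1, hε2, hε3⟩ := (hev.and (hev2.and self_mem_nhdsWithin)).exists
  refine ⟨∑ b ∈ F, V b - ε • ∑ a ∈ A, V a, ?_, ?_, ?_⟩
  · intro t ht htF
    have htT : t ∈ T := Finset.mem_filter.2 ⟨Finset.mem_powerset.2 (hC.sub t ht), ht, htF⟩
    refine ⟨h t, hh1 t htT, hh2 t htT, ?_⟩
    have := hε1 t htT
    simpa [map_sub, map_sum, map_smul] using this
  · rintro k hk ⟨u, hu, huF, hu0⟩ ⟨a, ha, hapos⟩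
    have h1 := hbd k hk u hu huF hu0
    have h2 : 0 < ∑ a ∈ A, k (V a) := Finset.sum_pos' hk ⟨a, ha, hapos⟩
    have h3 : 0 < ∑ b ∈ F, k (V b) := by
      by_contra h4
      push Not at h4
      nlinarith
    rw [map_sub, map_smul, map_sum, map_sum, smul_eq_mul]
    have h4 : ε * ∑ a ∈ A, k (V a) ≤ ε * (M * ∑ b ∈ F, k (V b)) := mul_le_mul_of_nonneg_left h1 hε3.le
    nlinarith
  · rintro k hk hkF ⟨a, ha, hapos⟩
    have h2 : 0 < ∑ a ∈ A, k (V a) := Finset.sum_pos' hk ⟨a, ha, hapos⟩
    rw [map_sub, map_smul, map_sum, map_sum, smul_eq_mul, Finset.sum_eq_zero hkF]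
    nlinarith

lemma exists_notMem {A : Finset ℕ} {Δ : Finset ℕ → Prop} (hC : Cpx d A Δ) {F : Finset ℕ}
    (hFc : F.card = d) : ∃ w ∈ A, w ∉ F := by
  by_contra hcon
  push Not at hcon
  have := Finset.card_le_card (show A ⊆ F from hcon)
  have := hC.cardA; omega

/-- Geometric stacking. -/
lemma stack_step {V : ℕ → E d} {A : Finset ℕ} {Δ : Finset ℕ → Prop} (hC : Cpx d A Δ)
    (hV : Realizes V A Δ) (hS : Stacked d (coneOn V A)) {F : Finset ℕ} (hF : Δ F) (hFc : F.card = d)
    {v : ℕ} (hv : v ∉ A) :
    ∃ V' : ℕ → E d, Realizes V' (insert v A) (stk Δ F v) ∧ Stacked d (coneOn V' (insert v A)) := by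
  classical
  obtain ⟨x, hx1, hx2, hx3⟩ := exists_beyond hC hV hF hFc
  have hFA := hC.sub F hF
  have hvF : v ∉ F := fun h' => hv (hFA h')
  obtain ⟨w, hwA, hwF⟩ := exists_notMem hC hFc
  set V' := Function.update V v x with hV'
  have hV'v : V' v = x := by simp [hV']
  have hV'a : ∀ a ∈ A, V' a = V a := fun a ha => by
    have : a ≠ v := by rintro rfl; exact hv ha
    simp [hV', this]
  obtain ⟨-, fF, hfF1, hfF2⟩ := (hV.faces F).2 (Or.inl hF)
  have hfFnn : ∀ a ∈ A, 0 ≤ fF (V a) := fun a ha => by
    by_cases h : a ∈ F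
    · exact (hfF1 a h).ge
    · exact (hfF2 a ha h).le
  have hfFx : fF x < 0 := hx3 fF hfFnn hfF1 ⟨w, hwA, hfF2 w hwA hwF⟩
  have hnotall : ∀ h : E d →ₗ[ℝ] ℝ, (∀ a ∈ A, h (V a) = 0) → h = 0 := by
    intro h hh
    apply functional_eq_zero hV.span
    rintro y ⟨a, ha, rfl⟩
    exact hh a ha
  refine ⟨V', ⟨?_, ?_⟩, ?_⟩
  · intro s
    constructor
    · rintro ⟨hsA, h, h0, h1⟩
      by_cases hvs : v ∈ s
      · set t := s.erase v with ht
        have htA : t ⊆ A := by
          intro a ha
          rcases Finset.mem_insert.1 (hsA (Finset.mem_of_mem_erase ha)) with h | h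
          · exact absurd h (Finset.ne_of_mem_erase ha)
          · exact h
        by_cases htA' : t = A
        · right; rw [← htA', ht, Finset.insert_erase hvs]
        · left; right
          refine ⟨hvs, ?_⟩
          have hhx : h x = 0 := by rw [← hV'v]; exact h0 v hvs
          have ht0 : ∀ a ∈ t, h (V a) = 0 := fun a ha => by
            rw [← hV'a a (htA ha)]; exact h0 a (Finset.mem_of_mem_erase ha)
          have ht1 : ∀ a ∈ A, a ∉ t → 0 < h (V a) := fun a ha hat => by
            rw [← hV'a a ha]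
            apply h1 a (Finset.mem_insert_of_mem ha)
            intro has
            exact hat (Finset.mem_erase.2 ⟨by rintro rfl; exact hv ha, has⟩)
          have hnn : ∀ a ∈ A, 0 ≤ h (V a) := fun a ha => by
            by_cases h' : a ∈ t
            · exact (ht0 a h').ge
            · exact (ht1 a ha h').le
          obtain ⟨a0, ha0, ha0t⟩ : ∃ a ∈ A, a ∉ t := by
            by_contra hcon
            push Not at hcon
            exact htA' (Finset.Subset.antisymm htA hcon)
          have htF : t ⊆ F := by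
            intro u hu
            by_contra huF
            have := hx2 h hnn ⟨u, htA hu, huF, ht0 u hu⟩ ⟨a0, ha0, ht1 a0 ha0 ha0t⟩
            linarith
          refine lt_of_le_of_ne htF ?_
          intro htF'
          have := hx3 h hnn (fun b hb => ht0 b (by rw [ht, htF']; exact hb)) ⟨w, hwA, ht1 w hwA (by rw [ht, htF']; exact hwF)⟩
          linarith
      · left; left
        have hsA' : s ⊆ A := fun a ha => by
          rcases Finset.mem_insert.1 (hsA ha) with h | h
          · subst h; exact absurd ha hvs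
          · exact h
        have hs0 : ∀ a ∈ s, h (V a) = 0 := fun a ha => by rw [← hV'a a (hsA' ha)]; exact h0 a ha
        have hs1 : ∀ a ∈ A, a ∉ s → 0 < h (V a) := fun a ha has => by
          rw [← hV'a a ha]; exact h1 a (Finset.mem_insert_of_mem ha) has
        have hhx : 0 < h x := by rw [← hV'v]; exact h1 v (Finset.mem_insert_self _ _) hvs
        rcases (hV.faces s).1 ⟨hsA', h, hs0, hs1⟩ with h2 | h2
        · refine ⟨hvs, h2, ?_⟩
          rintro rfl
          have hnn : ∀ a ∈ A, 0 ≤ h (V a) := fun a ha => by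
            by_cases h' : a ∈ s
            · exact (hs0 a h').ge
            · exact (hs1 a ha h').le
          have := hx3 h hnn hs0 ⟨w, hwA, hs1 w hwA hwF⟩
          linarith
        · exfalso
          have := hnotall h (fun a ha => hs0 a (by rw [h2]; exact ha))
          rw [this] at hhx; simp at hhx
    · rintro ((⟨hvs, hs, hsF⟩ | ⟨hvs, hsF⟩) | rfl)
      · obtain ⟨h, h1, h2, h3⟩ := hx1 s hs hsF
        refine ⟨(hC.sub s hs).trans (Finset.subset_insert _ _), h, ?_, ?_⟩
        · intro a ha; rw [hV'a a (hC.sub s hs ha)]; exact h1 a ha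
        · intro a ha has
          rcases Finset.mem_insert.1 ha with rfl | ha
          · rw [hV'v]; exact h3
          · rw [hV'a a ha]; exact h2 a ha has
      · have hsub : s.erase v ⊆ A := hsF.1.trans hFA
        have hΔ : Δ (s.erase v) := hC.down F _ hF hsF.1
        obtain ⟨h, h1, h2, h3⟩ := hx1 _ hΔ hsF.ne
        have hlam : 0 < h x / (-fF x) := div_pos h3 (by linarith)
        refine ⟨?_, h + (h x / (-fF x)) • fF, ?_, ?_⟩
        · intro a ha
          by_cases hav : a = v
          · subst hav; exact Finset.mem_insert_self _ _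
          · exact Finset.mem_insert_of_mem (hsub (Finset.mem_erase.2 ⟨hav, ha⟩))
        · intro a ha
          by_cases hav : a = v
          · subst hav
            rw [hV'v]
            simp only [LinearMap.add_apply, LinearMap.smul_apply, smul_eq_mul]
            have : fF x ≠ 0 := hfFx.ne
            field_simp; ring
          · have ha' := Finset.mem_erase.2 ⟨hav, ha⟩
            rw [hV'a a (hsub ha')]
            simp only [LinearMap.add_apply, LinearMap.smul_apply, smul_eq_mul, h1 a ha', hfF1 a (hsF.1 ha')]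
            ring
        · intro a ha has
          rcases Finset.mem_insert.1 ha with rfl | ha
          · exact absurd hvs has
          · rw [hV'a a ha]
            simp only [LinearMap.add_apply, LinearMap.smul_apply, smul_eq_mul]
            have h4 := h2 a ha (fun h => has (Finset.mem_of_mem_erase h))
            have h5 := mul_nonneg hlam.le (hfFnn a ha)
            linarith
      · exact ⟨subset_rfl, 0, fun _ _ => rfl, fun a ha has => absurd ha has⟩
  · rw [eq_top_iff, ← hV.span]
    apply Submodule.span_mono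
    rintro y ⟨a, ha, rfl⟩
    exact ⟨a, by simpa using Or.inr ha, hV'a a ha⟩
  · -- Stacked
    have hK : coneOn V' (insert v A) = {z | ∃ y ∈ coneOn V A, ∃ t : ℝ, 0 ≤ t ∧ z = y + t • x} := by
      ext z
      constructor
      · rintro ⟨c, hc, rfl⟩
        refine ⟨∑ a ∈ A, c a • V a, ⟨c, fun a ha => hc a (Finset.mem_insert_of_mem ha), rfl⟩, c v,
          hc v (Finset.mem_insert_self _ _), ?_⟩
        rw [Finset.sum_insert hv, hV'v, add_comm]
        congr 1
        exact Finset.sum_congr rfl (fun a ha => by rw [hV'a a ha])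
      · rintro ⟨y, ⟨c, hc, rfl⟩, t, ht, rfl⟩
        refine ⟨Function.update c v t, ?_, ?_⟩
        · intro a ha
          rcases Finset.mem_insert.1 ha with rfl | ha
          · simpa using ht
          · have : a ≠ v := fun h' => hv (h' ▸ ha)
            simpa [this] using hc a ha
        · rw [Finset.sum_insert hv, hV'v, add_comm]
          congr 1
          · simp
          · refine Finset.sum_congr rfl (fun a ha => ?_)
            have : a ≠ v := fun h' => hv (h' ▸ ha)
            rw [hV'a a ha]; simp [this]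
    rw [hK]
    have hFLI := LI_facet hC hV hF
    have hKspan : Module.finrank ℝ (Submodule.span ℝ (coneOn V A)) = d + 1 := by
      rw [span_coneOn, hV.span, finrank_top]; simp
    refine Stacked.stack (coneOn V A) (coneOn V F) x hS ⟨?_, ?_⟩ ?_ ?_
    · exact isFace_of_FS ((hV.faces F).2 (Or.inl hF))
    · rw [finrank_span_coneOn hFLI, hFc]
    · intro f hf hfF
      have hnn : ∀ a ∈ A, 0 ≤ f (V a) := fun a ha => hf _ (mem_coneOn_of_mem ha)
      have h0 : ∀ b ∈ F, f (V b) = 0 := fun b hb => by
        have : V b ∈ coneOn V F := mem_coneOn_of_mem hb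
        rw [hfF] at this
        exact this.2
      apply hx3 f hnn h0
      by_contra hcon
      push Not at hcon
      have h2 := hnotall f (fun a ha => le_antisymm (hcon a ha) (hnn a ha))
      have h3 : coneOn V F = coneOn V A := by
        rw [hfF, h2]; ext y; simp
      have h4 := finrank_span_coneOn hFLI
      rw [h3, hKspan, hFc] at h4
      omega
    · intro G hG hGF f hf hfG
      have hnn : ∀ a ∈ A, 0 ≤ f (V a) := fun a ha => hf _ (mem_coneOn_of_mem ha)
      obtain ⟨t, htA, ht0, ht1, ht⟩ := exists_FS_of_face hf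
      rw [← hfG] at ht
      have hne : ∃ a ∈ A, 0 < f (V a) := by
        by_contra hcon
        push Not at hcon
        have h2 := hnotall f (fun a ha => le_antisymm (hcon a ha) (hnn a ha))
        have h3 : G = coneOn V A := by
          rw [hfG, h2]; ext y; simp
        have h4 := hG.2
        rw [h3, hKspan] at h4
        omega
      by_cases h5 : ∃ u ∈ A, u ∉ F ∧ f (V u) = 0
      · exact hx2 f hnn h5 hne
      · exfalso
        push Not at h5
        have htF : t ⊆ F := by
          intro u hu
          by_contra huF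
          exact h5 u (htA hu) huF (ht0 u hu)
        have h6 := hG.2
        have h7 := finrank_span_coneOn_le V t
        rw [← ht, h6] at h7
        have h8 : t = F := Finset.eq_of_subset_of_card_le htF (by omega)
        exact hGF (by rw [ht, h8])


/-- A state: a complex together with the existence of a stacked geometric realization. -/
structure State (d : ℕ) where
  A : Finset ℕ
  Δ : Finset ℕ → Prop
  cpx : Cpx d A Δ
  geo : ∃ V : ℕ → E d, Realizes V A Δ ∧ Stacked d (coneOn V A)

/-- `Y` is obtained from `X` by further stackings (the properties we need). -/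
structure Ext (X Y : State d) : Prop where
  small : ∀ s, s.card < d → X.Δ s → Y.Δ s
  restr : ∀ U : ℕ → E d, Realizes U Y.A Y.Δ → Realizes U X.A X.Δ
  subA : X.A ⊆ Y.A

lemma Ext.refl (X : State d) : Ext X X := ⟨fun _ _ h => h, fun _ h => h, subset_rfl⟩

lemma Ext.trans {X Y Z : State d} (h1 : Ext X Y) (h2 : Ext Y Z) : Ext X Z :=
  ⟨fun s hs h => h2.small s hs (h1.small s hs h), fun U hU => h1.restr U (h2.restr U hU), h1.subA.trans h2.subA⟩

lemma exists_stack (hd : 2 ≤ d) (X : State d) {F : Finset ℕ} (hF : X.Δ F) (hFc : F.card = d) :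
    ∃ (v : ℕ) (Y : State d), v ∉ X.A ∧ Y.A = insert v X.A ∧ Y.Δ = stk X.Δ F v ∧ Ext X Y := by
  classical
  obtain ⟨v, hv⟩ := Infinite.exists_notMem_finset X.A
  obtain ⟨V, hV, hS⟩ := X.geo
  obtain ⟨V', hV', hS'⟩ := stack_step X.cpx hV hS hF hFc hv
  refine ⟨v, ⟨insert v X.A, stk X.Δ F v, X.cpx.stk hF hFc hv hd, V', hV', hS'⟩, hv, rfl, rfl, ?_, ?_, ?_⟩
  · intro s hs hX
    exact Or.inl ⟨fun h => hv (X.cpx.sub s hX h), hX, by rintro rfl; omega⟩
  · intro U hU
    exact (unstack X.cpx hF hFc hv hd hU).1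
  · exact Finset.subset_insert _ _

/-- Complete trees of stackings exist over every facet. -/
lemma exists_tree (hd : 2 ≤ d) : ∀ (D : ℕ) (X : State d) (F : Finset ℕ) (w : ℕ), X.Δ F → F.card = d →
    w ∈ X.A → w ∉ F → ∃ Y : State d, Ext X Y ∧ (∀ G, X.Δ G → G.card = d → G ≠ F → Y.Δ G) ∧
      ∀ U : ℕ → E d, Realizes U Y.A Y.Δ → STree Y.Δ U D F w := by
  classical
  intro D
  induction D with
  | zero =>
    intro X F w hF hFc hw hwF
    exact ⟨X, Ext.refl X, fun G hG _ _ => hG, fun _ _ => trivial⟩
  | succ D ih =>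
    intro X F w hF hFc hw hwF
    obtain ⟨v, X1, hv, hA1, hΔ1, hX1⟩ := exists_stack hd X hF hFc
    have hFA := X.cpx.sub F hF
    have hvF : v ∉ F := fun h => hv (hFA h)
    have key : ∀ B ⊆ F, ∃ Y : State d, Ext X1 Y ∧
        (∀ G, X1.Δ G → G.card = d → (∀ b ∈ B, G ≠ insert v (F.erase b)) → Y.Δ G) ∧
        ∀ U : ℕ → E d, Realizes U Y.A Y.Δ → ∀ b ∈ B, STree Y.Δ U D (insert v (F.erase b)) b := by
      intro B
      induction B using Finset.induction_on with
      | empty => intro _; exact ⟨X1, Ext.refl _, fun G hG _ _ => hG, fun _ _ b hb => absurd hb (by simp)⟩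
      | insert c B hcB ihB =>
        intro hB
        obtain ⟨Y, hY1, hY2, hY3⟩ := ihB ((Finset.subset_insert _ _).trans hB)
        have hcF : c ∈ F := hB (Finset.mem_insert_self _ _)
        have hvc : v ∉ F.erase c := fun h => hvF (Finset.mem_of_mem_erase h)
        have hcard : (insert v (F.erase c)).card = d := by
          rw [Finset.card_insert_of_notMem hvc, Finset.card_erase_of_mem hcF, hFc]; omega
        have hinj : ∀ b ∈ F, b ≠ c → insert v (F.erase c) ≠ insert v (F.erase b) := by
          intro b hb hbc h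
          have h1 : b ∈ insert v (F.erase c) := Finset.mem_insert_of_mem (Finset.mem_erase.2 ⟨hbc, hb⟩)
          rw [h] at h1
          rcases Finset.mem_insert.1 h1 with h2 | h2
          · subst h2; exact hvF hb
          · exact (Finset.notMem_erase _ _) h2
        have hΔc : X1.Δ (insert v (F.erase c)) := by
          rw [hΔ1]
          refine Or.inr ⟨Finset.mem_insert_self _ _, ?_⟩
          rw [Finset.erase_insert hvc]
          exact Finset.erase_ssubset hcF
        have hYc : Y.Δ (insert v (F.erase c)) := hY2 _ hΔc hcard (fun b hb =>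
          hinj b (hB (Finset.mem_insert_of_mem hb)) (by rintro rfl; exact hcB hb))
        have hcA : c ∈ Y.A := hY1.subA (by rw [hA1]; exact Finset.mem_insert_of_mem (hFA hcF))
        have hcn : c ∉ insert v (F.erase c) := by
          rw [Finset.mem_insert, not_or]
          exact ⟨by rintro rfl; exact hvF hcF, Finset.notMem_erase _ _⟩
        obtain ⟨Z, hZ1, hZ2, hZ3⟩ := ih Y (insert v (F.erase c)) c hYc hcard hcA hcn
        refine ⟨Z, hY1.trans hZ1, ?_, ?_⟩
        · intro G hG hGc hGB
          apply hZ2 G (hY2 G hG hGc (fun b hb => hGB b (Finset.mem_insert_of_mem hb))) hGc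
          exact hGB c (Finset.mem_insert_self _ _)
        · intro U hU b hb
          rcases Finset.mem_insert.1 hb with rfl | hb
          · exact hZ3 U hU
          · exact STree.mono hZ1.small _ _ _ (hY3 U (hZ1.restr U hU) b hb)
    obtain ⟨Y, hY1, hY2, hY3⟩ := key F subset_rfl
    refine ⟨Y, hX1.trans hY1, ?_, ?_⟩
    · intro G hG hGc hGF
      have hvG : v ∉ G := fun h => hv (X.cpx.sub G hG h)
      apply hY2 G _ hGc
      · rintro b hb rfl
        exact hvG (Finset.mem_insert_self _ _)
      · rw [hΔ1]; exact Or.inl ⟨hvG, hG, hGF⟩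
    · intro U hU
      have hU1 := hY1.restr U hU
      rw [hA1, hΔ1] at hU1
      obtain ⟨-, hLI, hexp⟩ := unstack X.cpx hF hFc hv hd hU1
      refine ⟨v, hvF, ?_, hLI, hexp w hw hwF, hY3 U hU⟩
      intro s hs hsc
      apply hY1.small s hsc
      rw [hΔ1]
      by_cases hvs : v ∈ s
      · right
        refine ⟨hvs, ?_⟩
        have h1 : s.erase v ⊆ F := by
          intro a ha
          rcases Finset.mem_insert.1 (hs (Finset.mem_of_mem_erase ha)) with h | h
          · exact absurd h (Finset.ne_of_mem_erase ha)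
          · exact h
        refine lt_of_le_of_ne h1 ?_
        intro h
        have h2 := congrArg Finset.card h
        rw [Finset.card_erase_of_mem hvs, hFc] at h2
        omega
      · left
        have h1 : s ⊆ F := by
          intro a ha
          rcases Finset.mem_insert.1 (hs ha) with h | h
          · subst h; exact absurd ha hvs
          · exact h
        exact ⟨hvs, X.cpx.down F s hF h1, by rintro rfl; omega⟩

/-- The initial state: a simplex. -/
lemma exists_simplex (hd : 1 ≤ d) : ∃ X : State d, X.A = Finset.range (d + 1) ∧ X.Δ = fun s => s ⊂ Finset.range (d+1) := by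
  classical
  refine ⟨⟨Finset.range (d+1), fun s => s ⊂ Finset.range (d+1), ?_, ?_⟩, rfl, rfl⟩
  · refine ⟨fun s hs => hs.1, fun s t hs hts => lt_of_le_of_lt hts hs, ?_, ?_, by simp⟩
    · intro s hs
      have := Finset.card_lt_card hs
      rw [Finset.card_range] at this; omega
    · intro a ha
      refine lt_of_le_of_ne (Finset.singleton_subset_iff.2 ha) ?_
      intro h
      have := congrArg Finset.card h
      rw [Finset.card_range, Finset.card_singleton] at this; omega
  · -- standard basis
    let V : ℕ → E d := fun a => if h : a < d + 1 then Pi.single ⟨a, h⟩ 1 else 0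
    have hVi : ∀ i : Fin (d+1), V i = Pi.single i 1 := fun i => by
      have := i.2
      simp only [V]
      rw [dif_pos this]
    have himg : V '' (Finset.range (d+1) : Finset ℕ) = Set.range (fun i : Fin (d+1) => (Pi.single i (1:ℝ) : E d)) := by
      ext x
      constructor
      · rintro ⟨a, ha, rfl⟩
        have ha' : a < d + 1 := by simpa using ha
        exact ⟨⟨a, ha'⟩, (hVi ⟨a, ha'⟩).symm⟩
      · rintro ⟨i, rfl⟩
        exact ⟨i, by simp [i.2], hVi i⟩
    have hspan : Submodule.span ℝ (V '' (Finset.range (d+1) : Finset ℕ)) = ⊤ := by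
      rw [himg]
      have := (Pi.basisFun ℝ (Fin (d+1))).span_eq
      convert this using 3
      ext i
      simp [Pi.basisFun_apply]
    refine ⟨V, ⟨?_, hspan⟩, ?_⟩
    · intro s
      constructor
      · rintro ⟨hs, -⟩
        rcases hs.eq_or_ssubset with h | h
        · exact Or.inr h
        · exact Or.inl h
      · intro hs
        have hs' : s ⊆ Finset.range (d+1) := by
          rcases hs with h | h
          · exact h.1
          · exact h.subset
        refine ⟨hs', ∑ i : Fin (d+1), (if (i:ℕ) ∈ s then (0:ℝ) else 1) • (LinearMap.proj i : E d →ₗ[ℝ] ℝ), ?_, ?_⟩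
        · intro a ha
          have ha' : a < d + 1 := by simpa using hs' ha
          have h1 := hVi ⟨a, ha'⟩
          simp only at h1
          rw [h1]
          simp only [LinearMap.sum_apply, LinearMap.smul_apply, LinearMap.proj_apply, smul_eq_mul]
          apply Finset.sum_eq_zero
          intro i _
          by_cases hi : i = ⟨a, ha'⟩
          · subst hi; simp [ha]
          · rw [Pi.single_eq_of_ne hi, mul_zero]
        · intro a haA has
          have ha' : a < d + 1 := by simpa using haA
          have h1 := hVi ⟨a, ha'⟩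
          simp only at h1
          rw [h1]
          simp only [LinearMap.sum_apply, LinearMap.smul_apply, LinearMap.proj_apply, smul_eq_mul]
          rw [Finset.sum_eq_single_of_mem ⟨a, ha'⟩ (Finset.mem_univ _)]
          · simp [has]
          · intro i _ hi
            rw [Pi.single_eq_of_ne hi, mul_zero]
    · have hc : coneOn V (Finset.range (d+1)) = coneOn (fun i : Fin (d+1) => (Pi.single i (1:ℝ) : E d)) Finset.univ := by
        ext x
        constructor
        · rintro ⟨c, hc, rfl⟩
          refine ⟨fun i => c i, fun i _ => hc i (by simp [i.2]), ?_⟩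
          rw [Finset.sum_range]
          exact Finset.sum_congr rfl (fun i _ => by rw [hVi i])
        · rintro ⟨c, hc, rfl⟩
          refine ⟨fun a => if h : a < d + 1 then c ⟨a, h⟩ else 0, ?_, ?_⟩
          · intro a ha
            have ha' : a < d + 1 := by simpa using ha
            simp only [ha', dif_pos]
            exact hc _ (Finset.mem_univ _)
          · rw [Finset.sum_range]
            refine Finset.sum_congr rfl (fun i _ => ?_)
            rw [hVi i]
            dsimp only
            rw [dif_pos i.2]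
      rw [hc]
      apply Stacked.simplex
      have := (Pi.basisFun ℝ (Fin (d+1))).linearIndependent
      convert this using 2
      ext i
      simp [Pi.basisFun_apply]

end Pool.Agent.H32.Scrib
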