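import Mathlib
import Pool.Agent.H32.ScribExt

/-!
From an abstract isomorphism of face lattices to a labelled realization.
-/

open scoped BigOperators

namespace Pool.Agent.H32.Scrib

variable {d : ℕ}

lemma coneOn_mono {ι : Type*} {V : ι → E d} {s t : Finset ι} (h : s ⊆ t) : coneOn V s ⊆ coneOn V t := by
  classical
  rintro x ⟨c, hc, rfl⟩
  refine ⟨fun a => if a ∈ s then c a else 0, ?_, ?_⟩
  · intro a _
    dsimp only
    split_ifs with has
    · exact hc a has
    · exact le_refl 0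
  · simp only [ite_smul, zero_smul]
    rw [← Finset.sum_filter]
    apply Finset.sum_congr _ (fun _ _ => rfl)
    ext a; simp only [Finset.mem_filter]
    exact ⟨fun h' => ⟨h h', h'⟩, fun h' => h'.2⟩

lemma coneOn_add {ι : Type*} {V : ι → E d} {s : Finset ι} {x y : E d} (hx : x ∈ coneOn V s)
    (hy : y ∈ coneOn V s) : x + y ∈ coneOn V s := by
  obtain ⟨c, hc, rfl⟩ := hx
  obtain ⟨c', hc', rfl⟩ := hy
  refine ⟨fun a => c a + c' a, fun a ha => add_nonneg (hc a ha) (hc' a ha), ?_⟩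
  rw [← Finset.sum_add_distrib]
  exact Finset.sum_congr rfl (fun a _ => (add_smul _ _ _).symm)

lemma coneOn_smul {ι : Type*} {V : ι → E d} {s : Finset ι} {x : E d} (hx : x ∈ coneOn V s)
    {t : ℝ} (ht : 0 ≤ t) : t • x ∈ coneOn V s := by
  obtain ⟨c, hc, rfl⟩ := hx
  refine ⟨fun a => t * c a, fun a ha => mul_nonneg ht (hc a ha), ?_⟩
  rw [Finset.smul_sum]
  exact Finset.sum_congr rfl (fun a _ => (smul_smul _ _ _))

lemma coneOn_zero {ι : Type*} {V : ι → E d} {s : Finset ι} : (0 : E d) ∈ coneOn V s :=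
  ⟨fun _ => 0, fun _ _ => le_refl _, by simp⟩

lemma coneOn_sum {ι κ : Type*} {V : ι → E d} {s : Finset ι} {f : κ → E d} (t : Finset κ)
    (h : ∀ k ∈ t, f k ∈ coneOn V s) : ∑ k ∈ t, f k ∈ coneOn V s := by
  classical
  induction t using Finset.induction_on with
  | empty => simpa using coneOn_zero
  | insert a t ha ih =>
    rw [Finset.sum_insert ha]
    exact coneOn_add (h a (Finset.mem_insert_self _ _)) (ih (fun k hk => h k (Finset.mem_insert_of_mem hk)))

/-- The set of generators lying in `F`. -/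
noncomputable def idx {ι : Type*} (V : ι → E d) (A : Finset ι) (F : Set (E d)) : Finset ι := by
  classical
  exact A.filter (fun a => V a ∈ F)

lemma mem_idx {ι : Type*} {V : ι → E d} {A : Finset ι} {F : Set (E d)} {a : ι} :
    a ∈ idx V A F ↔ a ∈ A ∧ V a ∈ F := by
  classical
  unfold idx; exact Finset.mem_filter

lemma idx_key {ι : Type*} [DecidableEq ι] (V : ι → E d) (A : Finset ι) (F : Set (E d))
    (hF : IsFace (coneOn V A) F) : FS V A (idx V A F) ∧ coneOn V (idx V A F) = F := by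
  obtain ⟨f, hf, rfl⟩ := hF
  obtain ⟨s, hsA, h0, h1, h2⟩ := exists_FS_of_face hf
  have hs : idx V A {x | x ∈ coneOn V A ∧ f x = 0} = s := by
    ext a
    rw [mem_idx]
    constructor
    · rintro ⟨ha, -, h3⟩
      by_contra has
      exact (h1 a ha has).ne' h3
    · intro ha
      exact ⟨hsA ha, mem_coneOn_of_mem (hsA ha), h0 a ha⟩
  rw [hs]
  exact ⟨⟨hsA, f, h0, h1⟩, h2.symm⟩

/-- The face lattice of the cone of a family is the lattice of vertex sets of faces. -/
noncomputable def faceIso {ι : Type*} [DecidableEq ι] (V : ι → E d) (A : Finset ι) :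
    {F : Set (E d) // IsFace (coneOn V A) F} ≃o {s : Finset ι // FS V A s} where
  toFun := fun F => ⟨idx V A F.1, (idx_key V A F.1 F.2).1⟩
  invFun := fun s => ⟨coneOn V s.1, isFace_of_FS s.2⟩
  left_inv := fun F => Subtype.ext (idx_key V A F.1 F.2).2
  right_inv := by
    rintro ⟨s, hs⟩
    apply Subtype.ext
    obtain ⟨hsA, f, h0, h1⟩ := hs
    have h2 := (face_of_functional hsA h0 h1).2
    ext a
    simp only [mem_idx]
    constructor
    · rintro ⟨ha, h3⟩
      rw [h2] at h3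
      by_contra has
      exact (h1 a ha has).ne' h3.2
    · intro ha
      exact ⟨hsA ha, mem_coneOn_of_mem ha⟩
  map_rel_iff' := by
    rintro ⟨F, hF⟩ ⟨G, hG⟩
    simp only [Equiv.coe_fn_mk, Subtype.mk_le_mk]
    constructor
    · intro h
      rw [← (idx_key V A F hF).2, ← (idx_key V A G hG).2]
      exact coneOn_mono h
    · intro h a ha
      rw [mem_idx] at ha ⊢
      exact ⟨ha.1, h ha.2⟩

/-- An order isomorphism between two families of vertex sets comes from a bijection of vertices. -/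
lemma exists_bij {ι κ : Type*} [DecidableEq ι] [DecidableEq κ] {V : ι → E d} {A : Finset ι}
    {W : κ → E d} {B : Finset κ} (hV0 : FS V A ∅) (hV1 : ∀ a ∈ A, FS V A {a})
    (hW0 : FS W B ∅) (hW1 : ∀ b ∈ B, FS W B {b})
    (Ψ : {s : Finset ι // FS V A s} ≃o {t : Finset κ // FS W B t}) (hA : A.Nonempty) :
    ∃ e : ι → κ, (∀ a ∈ A, e a ∈ B) ∧ (∀ a ∈ A, ∀ a' ∈ A, e a = e a' → a = a') ∧
      (∀ b ∈ B, ∃ a ∈ A, e a = b) ∧ ∀ s ⊆ A, (FS V A s ↔ FS W B (s.image e)) := by
  classical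
  have hbot : (Ψ ⟨∅, hV0⟩).1 = ∅ := by
    have h1 : (⟨∅, hV0⟩ : {s : Finset ι // FS V A s}) ≤ Ψ.symm ⟨∅, hW0⟩ := by
      change (∅ : Finset ι) ⊆ _; exact Finset.empty_subset _
    have h2 := (OrderIso.le_symm_apply Ψ).1 h1
    exact Finset.subset_empty.1 h2
  have hbot' : (Ψ.symm ⟨∅, hW0⟩).1 = ∅ := by
    have h1 : (⟨∅, hW0⟩ : {s : Finset κ // FS W B s}) ≤ Ψ ⟨∅, hV0⟩ := by
      change (∅ : Finset κ) ⊆ _; exact Finset.empty_subset _
    have h2 := (OrderIso.symm_apply_le Ψ).2 h1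
    exact Finset.subset_empty.1 h2
  have hat : ∀ a, ∀ ha : a ∈ A, ∃ b ∈ B, (Ψ ⟨{a}, hV1 a ha⟩).1 = {b} := by
    intro a ha
    have hne : (Ψ ⟨{a}, hV1 a ha⟩).1 ≠ ∅ := by
      intro h
      have h1 : Ψ ⟨{a}, hV1 a ha⟩ = Ψ ⟨∅, hV0⟩ := Subtype.ext (by rw [h, hbot])
      have h2 := Ψ.injective h1
      have h3 := congrArg Subtype.val h2
      simp at h3
    obtain ⟨b, hb⟩ := Finset.nonempty_iff_ne_empty.2 hne
    have hbB : b ∈ B := (Ψ ⟨{a}, hV1 a ha⟩).2.1 hb
    refine ⟨b, hbB, ?_⟩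
    have h1 : (⟨{b}, hW1 b hbB⟩ : {s : Finset κ // FS W B s}) ≤ Ψ ⟨{a}, hV1 a ha⟩ :=
      Finset.singleton_subset_iff.2 hb
    have h2 := (OrderIso.symm_apply_le Ψ).2 h1
    have h3 : (Ψ.symm ⟨{b}, hW1 b hbB⟩).1 ⊆ {a} := h2
    rcases Finset.subset_singleton_iff.1 h3 with h4 | h4
    · exfalso
      have h5 : Ψ.symm ⟨{b}, hW1 b hbB⟩ = Ψ.symm ⟨∅, hW0⟩ := Subtype.ext (by rw [h4, hbot'])
      have h6 := congrArg Subtype.val (Ψ.symm.injective h5)
      simp at h6
    · have h5 : Ψ.symm ⟨{b}, hW1 b hbB⟩ = ⟨{a}, hV1 a ha⟩ := Subtype.ext h4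
      rw [OrderIso.symm_apply_eq] at h5
      rw [← h5]
  have hat' : ∀ b, ∀ hb : b ∈ B, ∃ a, ∃ ha : a ∈ A, (Ψ ⟨{a}, hV1 a ha⟩).1 = {b} := by
    intro b hb
    have hne : (Ψ.symm ⟨{b}, hW1 b hb⟩).1 ≠ ∅ := by
      intro h
      have h1 : Ψ.symm ⟨{b}, hW1 b hb⟩ = Ψ.symm ⟨∅, hW0⟩ := Subtype.ext (by rw [h, hbot'])
      have h2 := Ψ.symm.injective h1
      have h3 := congrArg Subtype.val h2
      simp at h3
    obtain ⟨a, ha⟩ := Finset.nonempty_iff_ne_empty.2 hne
    have haA : a ∈ A := (Ψ.symm ⟨{b}, hW1 b hb⟩).2.1 ha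
    refine ⟨a, haA, ?_⟩
    have h1 : (⟨{a}, hV1 a haA⟩ : {s : Finset ι // FS V A s}) ≤ Ψ.symm ⟨{b}, hW1 b hb⟩ :=
      Finset.singleton_subset_iff.2 ha
    have h2 := (OrderIso.le_symm_apply Ψ).1 h1
    obtain ⟨b', hb', h3⟩ := hat a haA
    have h4 : (Ψ ⟨{a}, hV1 a haA⟩).1 ⊆ {b} := h2
    rw [h3] at h4 ⊢
    rw [Finset.singleton_subset_singleton] at h4
    rw [h4]
  obtain ⟨a0, ha0⟩ := hA
  obtain ⟨b0, hb0, -⟩ := hat a0 ha0
  have hex : ∀ a, ∃ b, ∀ ha : a ∈ A, b ∈ B ∧ (Ψ ⟨{a}, hV1 a ha⟩).1 = {b} := by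
    intro a
    by_cases ha : a ∈ A
    · obtain ⟨b, hb, h⟩ := hat a ha
      exact ⟨b, fun _ => ⟨hb, h⟩⟩
    · exact ⟨b0, fun h => absurd h ha⟩
  choose e he using hex
  have heB : ∀ a ∈ A, e a ∈ B := fun a ha => (he a ha).1
  have heinj : ∀ a ∈ A, ∀ a' ∈ A, e a = e a' → a = a' := by
    intro a ha a' ha' h
    have h1 : Ψ ⟨{a}, hV1 a ha⟩ = Ψ ⟨{a'}, hV1 a' ha'⟩ :=
      Subtype.ext (by rw [(he a ha).2, (he a' ha').2, h])
    have h2 := congrArg Subtype.val (Ψ.injective h1)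
    simpa using h2
  have hesurj : ∀ b ∈ B, ∃ a ∈ A, e a = b := by
    intro b hb
    obtain ⟨a, ha, h⟩ := hat' b hb
    refine ⟨a, ha, ?_⟩
    rw [(he a ha).2] at h
    simpa using h
  have himg : ∀ (s : Finset ι) (hs : FS V A s), (Ψ ⟨s, hs⟩).1 = s.image e := by
    intro s hs
    have h1 : ∀ a ∈ A, (a ∈ s ↔ e a ∈ (Ψ ⟨s, hs⟩).1) := by
      intro a ha
      have h2 : (⟨{a}, hV1 a ha⟩ : {s : Finset ι // FS V A s}) ≤ ⟨s, hs⟩ ↔ Ψ ⟨{a}, hV1 a ha⟩ ≤ Ψ ⟨s, hs⟩ :=
        (Ψ.le_iff_le).symm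
      have h3 : (⟨{a}, hV1 a ha⟩ : {s : Finset ι // FS V A s}) ≤ ⟨s, hs⟩ ↔ a ∈ s := by
        change ({a} : Finset ι) ⊆ s ↔ _
        exact Finset.singleton_subset_iff
      have h4 : Ψ ⟨{a}, hV1 a ha⟩ ≤ Ψ ⟨s, hs⟩ ↔ e a ∈ (Ψ ⟨s, hs⟩).1 := by
        change (Ψ ⟨{a}, hV1 a ha⟩).1 ⊆ (Ψ ⟨s, hs⟩).1 ↔ _
        rw [(he a ha).2]
        exact Finset.singleton_subset_iff
      rw [← h3, h2, h4]
    ext b
    rw [Finset.mem_image]
    constructor
    · intro hb
      obtain ⟨a, ha, rfl⟩ := hesurj b ((Ψ ⟨s, hs⟩).2.1 hb)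
      exact ⟨a, (h1 a ha).2 hb, rfl⟩
    · rintro ⟨a, ha, rfl⟩
      exact (h1 a (hs.1 ha)).1 ha
  refine ⟨e, heB, heinj, hesurj, ?_⟩
  intro s hsA
  constructor
  · intro hs
    rw [← himg s hs]
    exact (Ψ ⟨s, hs⟩).2
  · intro hs
    set s' := Ψ.symm ⟨s.image e, hs⟩ with hs'
    have h1 : (Ψ s').1 = s.image e := by rw [hs', OrderIso.apply_symm_apply]
    have h2 : (Ψ s').1 = s'.1.image e := himg s'.1 s'.2
    have h3 : s'.1 = s := by
      have h4 : s'.1.image e = s.image e := by rw [← h2, h1]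
      ext a
      constructor
      · intro ha
        have h5 : e a ∈ s.image e := by rw [← h4]; exact Finset.mem_image_of_mem _ ha
        obtain ⟨a', ha', h6⟩ := Finset.mem_image.1 h5
        rw [← heinj a' (hsA ha') a (s'.2.1 ha) h6]; exact ha'
      · intro ha
        have h5 : e a ∈ s'.1.image e := by rw [h4]; exact Finset.mem_image_of_mem _ ha
        obtain ⟨a', ha', h6⟩ := Finset.mem_image.1 h5
        rw [← heinj a' (s'.2.1 ha') a (hsA ha) h6]; exact ha'
    rw [← h3]; exact s'.2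

/-- A separation lemma. -/
lemma separation (T : Finset (E d)) (s : E d)
    (h : ∀ c : E d → ℝ, (∀ t ∈ T, 0 ≤ c t) → ∀ l : ℝ, ∑ t ∈ T, c t • t = l • s → ∀ t ∈ T, c t = 0) :
    ∃ f : E d →ₗ[ℝ] ℝ, f s = 0 ∧ ∀ t ∈ T, 0 < f t := by
  classical
  by_cases hT : T = ∅
  · subst hT; exact ⟨0, rfl, by simp⟩
  have hcomp : IsCompact (convexHull ℝ (T : Set (E d))) := T.finite_toSet.isCompact_convexHull ℝ
  have hclosed : IsClosed ((Submodule.span ℝ {s} : Submodule ℝ (E d)) : Set (E d)) :=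
    Submodule.closed_of_finiteDimensional _
  have hdisj : Disjoint (convexHull ℝ (T : Set (E d))) ((Submodule.span ℝ {s} : Submodule ℝ (E d)) : Set (E d)) := by
    rw [Set.disjoint_left]
    intro x hx hxs
    rw [Finset.mem_convexHull'] at hx
    obtain ⟨w, hw0, hw1, hw2⟩ := hx
    obtain ⟨l, hl⟩ := Submodule.mem_span_singleton.1 hxs
    have h1 := h w hw0 l (by rw [hw2, hl])
    rw [Finset.sum_eq_zero h1] at hw1
    norm_num at hw1
  obtain ⟨f, u, v, h1, h2, h3⟩ := geometric_hahn_banach_compact_closed (convex_convexHull ℝ _) hcomp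
    (Submodule.convex (Submodule.span ℝ {s})) hclosed hdisj
  have hv0 : v < 0 := by simpa using h3 0 (Submodule.zero_mem _)
  have hfs : f s = 0 := by
    by_contra hne
    have h4 := h3 (((v - 1) / f s) • s) (Submodule.smul_mem _ _ (Submodule.mem_span_singleton_self s))
    rw [map_smul, smul_eq_mul, div_mul_cancel₀ _ hne] at h4
    linarith
  refine ⟨-(f : E d →ₗ[ℝ] ℝ), by simp [hfs], ?_⟩
  intro t ht
  have h4 := h1 t (subset_convexHull ℝ _ ht)
  simp only [LinearMap.neg_apply, ContinuousLinearMap.coe_coe]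
  linarith

/-- A pointed polyhedral cone is generated by its extreme rays. -/
lemma exists_good {K : Set (E d)} (hK : IsRealization K) :
    ∃ S : Finset (E d), K = coneOn (fun v : E d => v) S ∧ FS (fun v : E d => v) S ∅ ∧
      ∀ a ∈ S, FS (fun v : E d => v) S {a} := by
  classical
  have hex : ∃ n, ∃ S : Finset (E d), S.card = n ∧ K = coneOn (fun v : E d => v) S := by
    obtain ⟨S, hS⟩ := hK.finGen
    exact ⟨S.card, S, rfl, hS⟩
  obtain ⟨S, hSc, hS⟩ := Nat.find_spec hex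
  have hmin : ∀ s ∈ S, s ∉ coneOn (fun v : E d => v) (S.erase s) := by
    intro s hs hmem
    have h1 : coneOn (fun v : E d => v) (S.erase s) = K := by
      apply Set.Subset.antisymm
      · rw [hS]; exact coneOn_mono (Finset.erase_subset _ _)
      · rw [hS]
        rintro x ⟨c, hc, rfl⟩
        apply coneOn_sum
        intro a ha
        apply coneOn_smul _ (hc a ha)
        by_cases has : a = s
        · rw [has]; exact hmem
        · exact mem_coneOn_of_mem (V := fun v : E d => v) (Finset.mem_erase.2 ⟨has, ha⟩)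
    have h2 := Nat.find_min' hex ⟨S.erase s, rfl, h1.symm⟩
    rw [← hSc, Finset.card_erase_of_mem hs] at h2
    have : 0 < S.card := Finset.card_pos.2 ⟨s, hs⟩
    omega
  have hne : ∀ s ∈ S, s ≠ 0 := by
    rintro s hs rfl
    exact hmin _ hs coneOn_zero
  have hmemK : ∀ s ∈ S, s ∈ K := fun s hs => by
    rw [hS]; exact mem_coneOn_of_mem (V := fun v : E d => v) hs
  have hpt : ∀ T ⊆ S, ∀ c : E d → ℝ, (∀ t ∈ T, 0 ≤ c t) → ∀ y ∈ K, ∑ t ∈ T, c t • t + y = 0 →
      ∀ t ∈ T, c t = 0 := by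
    intro T hTS c hc y hy hsum t ht
    have h1 : c t • t ∈ K := by
      rw [hS]; exact coneOn_smul (by rw [← hS]; exact hmemK t (hTS ht)) (hc t ht)
    have h2 : -(c t • t) ∈ K := by
      have h3 : -(c t • t) = ∑ a ∈ T.erase t, c a • a + y := by
        rw [← Finset.add_sum_erase T _ ht] at hsum
        rw [neg_eq_iff_add_eq_zero, ← add_assoc]; exact hsum
      rw [h3, hS]
      apply coneOn_add
      · apply coneOn_sum
        intro a ha
        have haT := Finset.mem_of_mem_erase ha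
        exact coneOn_smul (by rw [← hS]; exact hmemK a (hTS haT)) (hc a haT)
      · rw [← hS]; exact hy
    have h3 := hK.pointed _ h1 h2
    rcases smul_eq_zero.1 h3 with h4 | h4
    · exact h4
    · exact absurd h4 (hne t (hTS ht))
  refine ⟨S, hS, ?_, ?_⟩
  · obtain ⟨f, -, hf⟩ := separation S 0 (by
      intro c hc l hl
      apply hpt S subset_rfl c hc 0 (by rw [hS]; exact coneOn_zero)
      rw [hl]; simp)
    exact ⟨Finset.empty_subset _, f, by simp, fun a ha _ => hf a ha⟩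
  · intro s hs
    obtain ⟨f, hf0, hf⟩ := separation (S.erase s) s (by
      intro c hc l hl
      have hl0 : l ≤ 0 := by
        by_contra hpos
        push Not at hpos
        apply hmin s hs
        refine ⟨fun a => l⁻¹ * c a, fun a ha => mul_nonneg (inv_nonneg.2 hpos.le) (hc a ha), ?_⟩
        have h1 : s = l⁻¹ • (l • s) := by rw [smul_smul, inv_mul_cancel₀ hpos.ne', one_smul]
        conv_lhs => rw [h1, ← hl, Finset.smul_sum]
        exact Finset.sum_congr rfl (fun a _ => smul_smul _ _ _)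
      apply hpt (S.erase s) (Finset.erase_subset _ _) c hc ((-l) • s)
      · rw [hS]; exact coneOn_smul (by rw [← hS]; exact hmemK s hs) (by linarith)
      · rw [hl]; simp)
    refine ⟨Finset.singleton_subset_iff.2 hs, f, ?_, ?_⟩
    · intro a ha; rw [Finset.mem_singleton.1 ha]; exact hf0
    · intro a ha has
      exact hf a (Finset.mem_erase.2 ⟨by simpa using has, ha⟩)

/-- A realization combinatorially equivalent to a labelled one can be labelled. -/
lemma exists_label {V : ℕ → E d} {A : Finset ℕ} {Δ : Finset ℕ → Prop} (hC : Cpx d A Δ)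
    (hV : Realizes V A Δ) (hΔ0 : Δ ∅) {K' : Set (E d)} (hK' : IsRealization K')
    (hcomb : CombEquiv (coneOn V A) K') :
    ∃ U : ℕ → E d, Realizes U A Δ ∧ K' = coneOn U A := by
  classical
  obtain ⟨S, hS, hS0, hS1⟩ := exists_good hK'
  obtain ⟨Φ⟩ := hcomb
  have hA : A.Nonempty := Finset.card_pos.1 (by have := hC.cardA; omega)
  let Ψ : {s : Finset ℕ // FS V A s} ≃o {t : Finset (E d) // FS (fun v : E d => v) S t} :=
    (faceIso V A).symm.trans (Φ.trans ((OrderIso.setCongr _ _ (by rw [hS])).trans (faceIso _ S)))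
  obtain ⟨e, heB, heinj, hesurj, hiff⟩ := exists_bij ((hV.faces ∅).2 (Or.inl hΔ0))
    (fun a ha => (hV.faces _).2 (Or.inl (hC.sing a ha))) hS0 hS1 Ψ hA
  have hK'U : K' = coneOn e A := by
    rw [hS]
    have himg : A.image e = S := by
      ext b
      rw [Finset.mem_image]
      constructor
      · rintro ⟨a, ha, rfl⟩; exact heB a ha
      · intro hb; obtain ⟨a, ha, h⟩ := hesurj b hb; exact ⟨a, ha, h⟩
    ext x
    constructor
    · rintro ⟨c, hc, rfl⟩
      refine ⟨fun a => c (e a), fun a ha => hc _ (heB a ha), ?_⟩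
      rw [← himg, Finset.sum_image (fun a ha b hb h => heinj a ha b hb h)]
    · rintro ⟨c, hc, rfl⟩
      apply coneOn_sum
      intro a ha
      exact coneOn_smul (mem_coneOn_of_mem (V := fun v : E d => v) (heB a ha)) (hc a ha)
  refine ⟨e, ⟨?_, ?_⟩, hK'U⟩
  · intro s
    rw [← hV.faces s]
    constructor
    · rintro ⟨hsA, f, h0, h1⟩
      rw [hiff s hsA]
      refine ⟨?_, f, ?_, ?_⟩
      · intro b hb
        obtain ⟨a, ha, rfl⟩ := Finset.mem_image.1 hb
        exact heB a (hsA ha)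
      · intro b hb
        obtain ⟨a, ha, rfl⟩ := Finset.mem_image.1 hb
        exact h0 a ha
      · intro b hb hbs
        obtain ⟨a, ha, rfl⟩ := hesurj b hb
        exact h1 a ha (fun h => hbs (Finset.mem_image_of_mem _ h))
    · intro hs
      have hsA := hs.1
      rw [hiff s hsA] at hs
      obtain ⟨-, f, h0, h1⟩ := hs
      refine ⟨hsA, f, fun a ha => h0 _ (Finset.mem_image_of_mem _ ha), ?_⟩
      intro a ha has
      apply h1 _ (heB a ha)
      intro h
      obtain ⟨a', ha', h2⟩ := Finset.mem_image.1 h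
      rw [heinj a' (hsA ha') a ha h2] at ha'
      exact has ha'
  · rw [← span_coneOn, ← hK'U]; exact hK'.fullDim

end Pool.Agent.H32.Scrib
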