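import Mathlib
import Pool.Agent.H32.ScribBridge

/-!
Final assembly for the scribability problem.
-/

open scoped BigOperators

namespace Pool.Agent.H32.Scrib

variable {d : ℕ}

lemma extend_of_mem_intrinsicInterior {s : Set (E d)} {x y : E d} (hx : x ∈ intrinsicInterior ℝ s)
    (hy : y ∈ s) : ∃ ε : ℝ, 0 < ε ∧ x + ε • (x - y) ∈ s := by
  rw [mem_intrinsicInterior] at hx
  obtain ⟨z, hz, hzx⟩ := hx
  have hxs : x ∈ affineSpan ℝ s := by rw [← hzx]; exact z.2
  have hys : y ∈ affineSpan ℝ s := subset_affineSpan ℝ s hy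
  let φ : ℝ → affineSpan ℝ s := fun t => ⟨AffineMap.lineMap y x (1 + t), AffineMap.lineMap_mem _ hys hxs⟩
  have hφc : Continuous φ := by
    apply Continuous.subtype_mk
    exact AffineMap.lineMap_continuous.comp (continuous_const.add continuous_id)
  have hφ0 : φ 0 = z := by
    apply Subtype.ext
    simp only [φ, add_zero, AffineMap.lineMap_apply_one]
    exact hzx.symm
  have hopen : IsOpen (φ ⁻¹' interior ((↑) ⁻¹' s : Set (affineSpan ℝ s))) := isOpen_interior.preimage hφc
  have h0 : (0:ℝ) ∈ φ ⁻¹' interior ((↑) ⁻¹' s : Set (affineSpan ℝ s)) := by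
    rw [Set.mem_preimage, hφ0]; exact hz
  obtain ⟨ε, hε, hball⟩ := Metric.isOpen_iff.1 hopen 0 h0
  have h1 : ε / 2 ∈ φ ⁻¹' interior ((↑) ⁻¹' s : Set (affineSpan ℝ s)) := by
    apply hball
    rw [Metric.mem_ball, Real.dist_eq, sub_zero, abs_of_pos (by linarith)]; linarith
  have h2 := interior_subset h1
  refine ⟨ε / 2, by linarith, ?_⟩
  have h3 : (φ (ε/2) : E d) = x + (ε/2) • (x - y) := by
    simp only [φ, AffineMap.lineMap_apply]
    simp only [vsub_eq_sub, vadd_eq_add, add_smul, one_smul]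
    abel
  rw [← h3]; exact h2

lemma pos_coeff_of_relint {U : ℕ → E d} {s : Finset ℕ} (hLI : LI U s) {x : E d}
    (hx : x ∈ intrinsicInterior ℝ (coneOn U s)) :
    ∃ c : ℕ → ℝ, (∀ a ∈ s, 0 < c a) ∧ x = ∑ a ∈ s, c a • U a := by
  classical
  obtain ⟨c, hc, hxc⟩ := intrinsicInterior_subset hx
  refine ⟨c, ?_, hxc⟩
  intro a ha
  obtain ⟨ε, hε, c', hc', h1⟩ := extend_of_mem_intrinsicInterior hx (mem_coneOn_of_mem (V := U) ha)
  have h2 : ∑ b ∈ s, ((1 + ε) * c b - ε * (if b = a then 1 else 0) - c' b) • U b = 0 := by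
    simp only [sub_smul, Finset.sum_sub_distrib, mul_smul]
    rw [← Finset.smul_sum, ← Finset.smul_sum, ← hxc, ← h1]
    have h3 : ∑ b ∈ s, (if b = a then (1:ℝ) else 0) • U b = U a := by simp [ha]
    rw [h3]
    simp only [add_smul, smul_sub, one_smul]; abel
  have h3 := hLI _ h2 a ha
  simp only [if_true, mul_one] at h3
  have h4 := hc' a ha
  have h5 : 0 < (1 + ε) * c a := by linarith
  exact (mul_pos_iff_of_pos_left (by linarith)).1 h5

lemma isKFace_of {U : ℕ → E d} {A : Finset ℕ} {Δ : Finset ℕ → Prop} (hC : Cpx d A Δ)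
    (hU : Realizes U A Δ) {s : Finset ℕ} {k : ℕ} (hs : Δ s) (hk : s.card = k + 1) :
    IsKFace (coneOn U A) k (coneOn U s) :=
  ⟨isFace_of_FS ((hU.faces s).2 (Or.inl hs)), by rw [finrank_span_coneOn (LI_facet hC hU hs), hk]⟩

lemma isRealization_of {V : ℕ → E d} {A : Finset ℕ} {Δ : Finset ℕ → Prop}
    (hV : Realizes V A Δ) (hΔ0 : Δ ∅) : IsRealization (coneOn V A) where
  finGen := by
    classical
    refine ⟨A.image V, ?_⟩
    apply Set.Subset.antisymm
    · rintro x ⟨c, hc, rfl⟩
      apply coneOn_sum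
      intro a ha
      exact coneOn_smul (mem_coneOn_of_mem (V := fun v : E d => v) (Finset.mem_image_of_mem _ ha)) (hc a ha)
    · rintro x ⟨c, hc, rfl⟩
      apply coneOn_sum
      intro b hb
      obtain ⟨a, ha, rfl⟩ := Finset.mem_image.1 hb
      exact coneOn_smul (mem_coneOn_of_mem ha) (hc _ hb)
  pointed := by
    classical
    intro x hx hnx
    obtain ⟨h1, f, h2, h3⟩ := (hV.faces ∅).2 (Or.inl hΔ0)
    obtain ⟨h4, h5⟩ := face_of_functional h1 h2 h3
    have h6 := h4 x hx
    have h7 := h4 (-x) hnx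
    rw [map_neg] at h7
    have h8 : x ∈ coneOn V ∅ := by rw [h5]; exact ⟨hx, by linarith⟩
    obtain ⟨c, -, h9⟩ := h8
    simpa using h9
  fullDim := by
    classical
    rw [span_coneOn, hV.span]

theorem main (d i j : ℕ) (hij : i < j) (hj : j + 3 ≤ d) :
    ∃ K : Set (E d), Stacked d K ∧ IsRealization K ∧
      ∀ K' : Set (E d), IsRealization K' → CombEquiv K K' → ¬ Scribed i j K' := by
  classical
  have hd2 : 2 ≤ d := by omega
  have hdR : (4:ℝ) ≤ d := by exact_mod_cast (by omega : 4 ≤ d)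
  obtain ⟨D, hD⟩ := pow_unbounded_of_one_lt (2 * (d:ℝ)) (show (1:ℝ) < (d:ℝ) / (d - 1) by
    rw [lt_div_iff₀ (by linarith)]; linarith)
  obtain ⟨X0, hA0, hΔ0⟩ := exists_simplex (d := d) (by omega)
  have hF0 : X0.Δ (Finset.range d) := by
    rw [hΔ0]
    exact Finset.ssubset_iff_subset_ne.2 ⟨Finset.range_mono (by omega), fun h => by
      have := congrArg Finset.card h; simp at this⟩
  have hFc : (Finset.range d).card = d := Finset.card_range d
  obtain ⟨Y, hXY, -, htree⟩ := exists_tree hd2 (D+1) X0 (Finset.range d) d hF0 hFc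
    (by rw [hA0]; simp) (by simp)
  obtain ⟨V, hV, hS⟩ := Y.geo
  have hY0 : Y.Δ ∅ := by
    obtain ⟨a, ha⟩ : Y.A.Nonempty := Finset.card_pos.1 (by have := Y.cpx.cardA; omega)
    exact Y.cpx.down _ _ (Y.cpx.sing a ha) (Finset.empty_subset _)
  refine ⟨coneOn V Y.A, hS, isRealization_of hV hY0, ?_⟩
  intro K' hK' hcomb hscr
  obtain ⟨U, hU, rfl⟩ := exists_label Y.cpx hV hY0 hK' hcomb
  have hT := htree U hU
  have hU0 := hXY.restr U hU
  -- cutting hypothesis
  have hcut : CutHyp U Y.Δ j := by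
    intro s hs hsc
    obtain ⟨x, hx, hxB, -⟩ := hscr.2 _ (isKFace_of Y.cpx hU hs hsc)
    obtain ⟨c, hc, rfl⟩ := pos_coeff_of_relint (LI_facet Y.cpx hU hs) hx
    exact ⟨c, hc, hxB⟩
  have hav : AvoidHyp U Y.Δ := by
    intro v F hvF hF hsmall
    have hex : ∀ b ∈ F, ∃ f : E d →ₗ[ℝ] ℝ, f (U v) = 0 ∧ (∀ a ∈ F, 0 ≤ f (U a)) ∧ 0 < f (U b) ∧
        ∀ x ∈ lightBall d, 0 ≤ f x := by
      intro b hb
      have hle : i ≤ (F.erase b).card := by rw [Finset.card_erase_of_mem hb, hF]; omega
      obtain ⟨I, hI, hIc⟩ := Finset.exists_subset_card_eq hle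
      have hvI : v ∉ I := fun h => hvF (Finset.mem_of_mem_erase (hI h))
      have hsc : (insert v I).card = i + 1 := by rw [Finset.card_insert_of_notMem hvI, hIc]
      have hsub : insert v I ⊆ insert v F := Finset.insert_subset_insert _ (hI.trans (Finset.erase_subset _ _))
      have hs : Y.Δ (insert v I) := hsmall _ hsub (by omega)
      obtain ⟨f, hf1, hf2, hf3⟩ := hscr.1 _ (isKFace_of Y.cpx hU hs hsc)
      have hsing : ∀ a ∈ insert v F, a ∈ Y.A := fun a ha =>
        Y.cpx.sub _ (hsmall {a} (Finset.singleton_subset_iff.2 ha) (by simp; omega)) (Finset.mem_singleton_self a)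
      refine ⟨f, ?_, ?_, ?_, hf3⟩
      · have h1 : U v ∈ coneOn U (insert v I) := mem_coneOn_of_mem (Finset.mem_insert_self _ _)
        rw [hf2] at h1; exact h1.2
      · intro a ha
        exact hf1 _ (mem_coneOn_of_mem (hsing a (Finset.mem_insert_of_mem ha)))
      · have hbA := hsing b (Finset.mem_insert_of_mem hb)
        have h1 := hf1 _ (mem_coneOn_of_mem (V := U) hbA)
        refine lt_of_le_of_ne h1 ?_
        intro h2
        have h3 : U b ∈ coneOn U (insert v I) := by
          rw [hf2]; exact ⟨mem_coneOn_of_mem hbA, h2.symm⟩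
        -- contradiction using the face functional
        obtain ⟨hsA, g, hg1, hg2⟩ := (hU.faces _).2 (Or.inl hs)
        rw [(face_of_functional hsA hg1 hg2).2] at h3
        have hbs : b ∉ insert v I := by
          rw [Finset.mem_insert, not_or]
          exact ⟨by rintro rfl; exact hvF hb, fun h => (Finset.notMem_erase _ _) (hI h)⟩
        exact (hg2 b hbA hbs).ne' h3.2
    choose! f hf1 hf2 hf3 hf4 using hex
    refine ⟨∑ b ∈ F, f b, ?_, ?_, ?_⟩
    · rw [LinearMap.sum_apply]; exact Finset.sum_eq_zero hf1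
    · intro b hb
      rw [LinearMap.sum_apply]
      exact Finset.sum_pos' (fun a ha => hf2 a ha b hb) ⟨b, hb, hf3 b hb⟩
    · intro x hx
      rw [LinearMap.sum_apply]
      exact Finset.sum_nonneg (fun b hb => hf4 b hb x hx)
  -- ridge normals
  have hrn : ∀ R, Y.Δ R → R.card + 1 = d → LI U R → (∀ s ⊆ R, s.card < d → Y.Δ s) →
      ∃ m : E d, lor m m = 1 ∧ (∀ a ∈ R, lor m (U a) = 0) ∧ ∀ a ∈ Y.A, a ∉ R → lor m (U a) < 0 := by
    intro R hR hRc hLI hsm
    obtain ⟨hRA, f, hf1, hf2⟩ := (hU.faces R).2 (Or.inl hR)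
    obtain ⟨y, hy⟩ := exists_lor_repr (-f)
    have hy0 : ∀ a ∈ R, lor y (U a) = 0 := fun a ha => by rw [← hy]; simp [hf1 a ha]
    have hy1 : ∀ a ∈ Y.A, a ∉ R → lor y (U a) < 0 := fun a ha haR => by
      rw [← hy]; simpa using hf2 a ha haR
    have hyne : y ≠ 0 := by
      rintro rfl
      obtain ⟨a, ha, haR⟩ : ∃ a ∈ Y.A, a ∉ R := by
        by_contra hcon
        push Not at hcon
        have := Finset.card_le_card (show Y.A ⊆ R from hcon)
        have := Y.cpx.cardA; omega
      have := hy1 a ha haR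
      simp at this
    have hpos := pos_of_orth hcut hLI (by omega) hsm (by omega) hy0 hyne
    refine ⟨(Real.sqrt (lor y y))⁻¹ • y, ?_, ?_, ?_⟩
    · rw [lor_smul_left, lor_smul_right]
      have hs := Real.mul_self_sqrt hpos.le
      have hs0 : Real.sqrt (lor y y) ≠ 0 := (Real.sqrt_pos.2 hpos).ne'
      field_simp
      rw [sq]; exact hs.symm
    · intro a ha
      rw [lor_smul_left, hy0 a ha, mul_zero]
    · intro a ha haR
      rw [lor_smul_left]
      exact mul_neg_of_pos_of_neg (inv_pos.2 (Real.sqrt_pos.2 hpos)) (hy1 a ha haR)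
  choose! m hm1 hm2 hm3 using hrn
  have hm : RidgeNormals U Y.A Y.Δ m := ⟨hm1, hm2, hm3⟩
  -- the root normal
  have hLI0 : LI U (Finset.range (d+1)) := by
    have h1 := LI_facet_insert X0.cpx hU0 hF0 (u := d) (by rw [hA0]; simp) (by simp)
    rwa [← Finset.range_add_one] at h1
  obtain ⟨n, hn⟩ := exists_normal (U := U) (P := Y.Δ) (T := Finset.range (d+1)) (R := Finset.range (d-1)) (b := d)
    hcut hj hLI0 (Finset.card_range _) (Finset.range_mono (by omega)) (by rw [Finset.card_range]; omega)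
    (fun s hs hsc => hXY.small s hsc (by
      rw [hΔ0]
      have h1 : s ⊆ Finset.range (d+1) := hs.trans (Finset.range_mono (by omega))
      refine Finset.ssubset_iff_subset_ne.2 ⟨h1, fun h => by
        rw [h, Finset.card_range] at hsc; omega⟩)) (by simp) (by simp)
  have herase : (Finset.range (d+1)).erase d = Finset.range d := by
    rw [Finset.range_add_one, Finset.erase_insert (by simp)]
  rw [herase] at hn
  have hW := W_lower hcut hav hj Y.cpx.sub hm D (Finset.range d) d n hFc hn hT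
  have hub : ∑ b ∈ Finset.range d, ang n (m ((Finset.range d).erase b)) ≤ d * Real.pi := by
    have := Finset.sum_le_card_nsmul (Finset.range d) (fun b => ang n (m ((Finset.range d).erase b))) Real.pi
      (fun b _ => ang_le_pi _ _)
    rw [Finset.card_range, nsmul_eq_mul] at this
    exact this
  have hpi := Real.pi_pos
  have : Real.pi / 2 * (2 * (d:ℝ)) < Real.pi / 2 * ((d:ℝ) / (d - 1)) ^ D :=
    mul_lt_mul_of_pos_left hD (by linarith)
  linarith

end Pool.Agent.H32.Scrib
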